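import Mathlib

/-!
Conditional entropies for functions of independent seeds, with explicit resampling.
-/

set_option linter.unusedSectionVars false

open MeasureTheory Set Function
open scoped ENNReal

namespace Pool.Agent.helper25_fiid

section Splice

variable {Γ E : Type*}

open Classical in
/-- `splice A a b` agrees with `a` on `A` and with `b` off `A`. -/
noncomputable def splice (A : Set Γ) (a b : Γ → E) : Γ → E := fun v => if v ∈ A then a v else b v

lemma splice_mem {A : Set Γ} {a b : Γ → E} {v : Γ} (h : v ∈ A) : splice A a b v = a v := by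
  simp [splice, h]

lemma splice_not_mem {A : Set Γ} {a b : Γ → E} {v : Γ} (h : v ∉ A) : splice A a b v = b v := by
  simp [splice, h]

lemma splice_splice {A : Set Γ} {u : Γ} (hu : u ∉ A) (a b c : Γ → E) :
    splice A a (splice {u} c b) = splice (insert u A) (splice {u} c a) b := by
  funext v
  by_cases hv : v ∈ A
  · have hvu : v ≠ u := fun h => hu (h ▸ hv)
    simp [splice, hv, hvu]
  · by_cases hvu : v = u
    · simp [splice, hvu, hu]
    · simp [splice, hv, hvu]

variable [MeasurableSpace E]

lemma measurable_splice (A : Set Γ) :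
    Measurable (fun p : (Γ → E) × (Γ → E) => splice A p.1 p.2) := by
  refine measurable_pi_lambda _ fun v => ?_
  by_cases h : v ∈ A
  · simp only [splice_mem h]; fun_prop
  · simp only [splice_not_mem h]; fun_prop

lemma measurable_splice_right (A : Set Γ) (a : Γ → E) :
    Measurable (fun b : Γ → E => splice A a b) :=
  (measurable_splice A).comp measurable_prodMk_left

/-- the i.i.d. law on configurations -/
noncomputable abbrev iid (Γ : Type*) {E : Type*} [MeasurableSpace E] (ν : Measure E) :
    Measure (Γ → E) := Measure.infinitePi (fun _ : Γ => ν)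

variable (ν : Measure E) [IsProbabilityMeasure ν]

lemma map_splice (A : Set Γ) :
    ((iid Γ ν).prod (iid Γ ν)).map (fun p => splice A p.1 p.2) = iid Γ ν := by
  classical
  refine Measure.eq_infinitePi _ fun s t ht => ?_
  rw [Measure.map_apply (measurable_splice A) (.pi s.countable_toSet fun _ _ => ht _)]
  have : (fun p : (Γ → E) × (Γ → E) => splice A p.1 p.2) ⁻¹' (Set.pi s t)
      = (Set.pi (s.filter (· ∈ A)) t) ×ˢ (Set.pi (s.filter (· ∉ A)) t) := by
    ext p
    simp only [mem_preimage, Set.mem_pi, Finset.mem_coe, mem_prod, Finset.coe_filter, mem_ofPred_eq]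
    constructor
    · intro h
      refine ⟨fun i hi => ?_, fun i hi => ?_⟩
      · have := h i hi.1
        rwa [splice_mem hi.2] at this
      · have := h i hi.1
        rwa [splice_not_mem hi.2] at this
    · rintro ⟨h1, h2⟩ i hi
      by_cases hA : i ∈ A
      · rw [splice_mem hA]; exact h1 i ⟨hi, hA⟩
      · rw [splice_not_mem hA]; exact h2 i ⟨hi, hA⟩
  rw [this, Measure.prod_prod, Measure.infinitePi_pi _ (fun i _ => ht i),
    Measure.infinitePi_pi _ (fun i _ => ht i), Finset.prod_filter_mul_prod_filter_not]

end Splice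

section Cond

variable {Γ E : Type*} [MeasurableSpace E] (ν : Measure E) [IsProbabilityMeasure ν]
variable {α β : Type*}

/-- conditional probability that `W = z` given that the coordinates in `A` are those of `a` -/
noncomputable def cp (W : (Γ → E) → α) (A : Set Γ) (a : Γ → E) (z : α) : ℝ :=
  (iid Γ ν).real {b | W (splice A a b) = z}

variable {ν}

lemma cp_nonneg (W : (Γ → E) → α) (A : Set Γ) (a : Γ → E) (z : α) : 0 ≤ cp ν W A a z :=
  measureReal_nonneg

lemma cp_le_one (W : (Γ → E) → α) (A : Set Γ) (a : Γ → E) (z : α) : cp ν W A a z ≤ 1 :=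
  measureReal_le_one

lemma measurableSet_splice_fiber [MeasurableSpace α] [MeasurableSingletonClass α]
    {W : (Γ → E) → α} (hW : Measurable W) (A : Set Γ) (z : α) :
    MeasurableSet {p : (Γ → E) × (Γ → E) | W (splice A p.1 p.2) = z} :=
  (hW.comp (measurable_splice A)) (measurableSet_singleton z)

lemma measurable_cp [MeasurableSpace α] [MeasurableSingletonClass α]
    {W : (Γ → E) → α} (hW : Measurable W) (A : Set Γ) (z : α) :
    Measurable (fun a => cp ν W A a z) := by
  unfold cp Measure.real
  exact (measurable_measure_prodMk_left (measurableSet_splice_fiber hW A z)).ennreal_toReal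

/-- resampling one more coordinate -/
lemma cp_eq_integral [MeasurableSpace α] [MeasurableSingletonClass α]
    {W : (Γ → E) → α} (hW : Measurable W) {A : Set Γ} {u : Γ} (hu : u ∉ A) (a : Γ → E) (z : α) :
    cp ν W A a z = ∫ c, cp ν W (insert u A) (splice {u} c a) z ∂(iid Γ ν) := by
  have hm : MeasurableSet {b : Γ → E | W (splice A a b) = z} :=
    (hW.comp (measurable_splice_right A a)) (measurableSet_singleton z)
  have hm2 : MeasurableSet {p : (Γ → E) × (Γ → E) | W (splice A a (splice {u} p.1 p.2)) = z} :=
    (hW.comp ((measurable_splice_right A a).comp (measurable_splice {u})))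
      (measurableSet_singleton z)
  have h1 : (iid Γ ν) {b | W (splice A a b) = z}
      = ∫⁻ c, (iid Γ ν) {b | W (splice (insert u A) (splice {u} c a) b) = z} ∂(iid Γ ν) := by
    conv_lhs => rw [← map_splice ν {u}]
    rw [Measure.map_apply (measurable_splice {u}) hm]
    have : (fun p : (Γ → E) × (Γ → E) => splice {u} p.1 p.2) ⁻¹' {b | W (splice A a b) = z}
        = {p : (Γ → E) × (Γ → E) | W (splice A a (splice {u} p.1 p.2)) = z} := rfl
    rw [this, Measure.prod_apply hm2]
    refine lintegral_congr fun c => ?_
    congr 1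
    ext b
    simp only [mem_preimage, mem_ofPred_eq]
    rw [splice_splice hu]
  unfold cp Measure.real
  rw [h1, integral_toReal]
  · have : Measurable fun c : Γ → E =>
        (iid Γ ν) {b | W (splice A a (splice {u} c b)) = z} :=
      measurable_measure_prodMk_left hm2
    simp only [splice_splice hu] at this
    exact this.aemeasurable
  · exact ae_of_all _ fun c => measure_lt_top _ _

/-- entropy of a (sub)probability vector -/
noncomputable def ent [Fintype α] (p : α → ℝ) : ℝ := ∑ z, Real.negMulLog (p z)

lemma negMulLog_le_one {x : ℝ} (h0 : 0 ≤ x) : Real.negMulLog x ≤ 1 := by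
  rcases h0.eq_or_lt with h | h
  · simp [← h]
  · have := Real.one_sub_inv_le_log_of_pos h
    unfold Real.negMulLog
    have h2 : x * (1 - x⁻¹) ≤ x * Real.log x := mul_le_mul_of_nonneg_left this h.le
    have h3 : x * (1 - x⁻¹) = x - 1 := by field_simp
    nlinarith

lemma ent_nonneg [Fintype α] {p : α → ℝ} (h0 : ∀ z, 0 ≤ p z) (h1 : ∀ z, p z ≤ 1) : 0 ≤ ent p :=
  Finset.sum_nonneg fun z _ => Real.negMulLog_nonneg (h0 z) (h1 z)

lemma ent_le_card [Fintype α] {p : α → ℝ} (h0 : ∀ z, 0 ≤ p z) :
    ent p ≤ Fintype.card α := by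
  unfold ent
  calc ∑ z, Real.negMulLog (p z) ≤ ∑ _z : α, (1 : ℝ) :=
        Finset.sum_le_sum fun z _ => negMulLog_le_one (h0 z)
    _ = Fintype.card α := by simp

lemma measurable_ent [Fintype α] {Ω : Type*} [MeasurableSpace Ω] {p : Ω → α → ℝ}
    (hp : ∀ z, Measurable fun c => p c z) : Measurable fun c => ent (p c) := by
  unfold ent
  exact Finset.measurable_sum _ fun z _ => Real.continuous_negMulLog.measurable.comp (hp z)

lemma integrable_ent [Fintype α] {Ω : Type*} [MeasurableSpace Ω] {P : Measure Ω}
    [IsProbabilityMeasure P] {p : Ω → α → ℝ}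
    (hp : ∀ z, Measurable fun c => p c z) (h0 : ∀ c z, 0 ≤ p c z) (h1 : ∀ c z, p c z ≤ 1) :
    Integrable (fun c => ent (p c)) P := by
  refine Integrable.of_bound (measurable_ent hp).aestronglyMeasurable (Fintype.card α)
    (ae_of_all _ fun c => ?_)
  rw [Real.norm_eq_abs, abs_of_nonneg (ent_nonneg (h0 c) (h1 c))]
  exact ent_le_card (h0 c)

variable (ν) in
/-- conditional entropy of `W` given the seeds in `A` -/
noncomputable def gE [Fintype α] (W : (Γ → E) → α) (A : Set Γ) : ℝ :=
  ∫ a, ent (cp ν W A a) ∂(iid Γ ν)

end Cond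

/-- The log-sum inequality. -/
lemma log_sum_ineq {α : Type*} (T : Finset α) (a b : α → ℝ) (ha : ∀ z ∈ T, 0 ≤ a z)
    (hb : ∀ z ∈ T, 0 ≤ b z) (hab : ∀ z ∈ T, b z = 0 → a z = 0) :
    (∑ z ∈ T, a z) * (Real.log (∑ z ∈ T, a z) - Real.log (∑ z ∈ T, b z))
      ≤ ∑ z ∈ T, a z * (Real.log (a z) - Real.log (b z)) := by
  set A := ∑ z ∈ T, a z with hA
  set B := ∑ z ∈ T, b z with hB
  have hA0 : 0 ≤ A := Finset.sum_nonneg ha
  rcases hA0.eq_or_lt with h | h
  · have hz : ∀ z ∈ T, a z = 0 := (Finset.sum_eq_zero_iff_of_nonneg ha).1 h.symm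
    rw [← h, zero_mul]
    exact (Finset.sum_eq_zero fun z hz' => by rw [hz z hz', zero_mul]).ge
  · have hBpos : 0 < B := by
      have hB0 : 0 ≤ B := Finset.sum_nonneg hb
      rcases hB0.eq_or_lt with h' | h'
      · have hz : ∀ z ∈ T, b z = 0 := (Finset.sum_eq_zero_iff_of_nonneg hb).1 h'.symm
        have : A = 0 := Finset.sum_eq_zero fun z hz' => hab z hz' (hz z hz')
        exact absurd this h.ne'
      · exact h'
    have key : ∀ z ∈ T, a z * (Real.log A - Real.log B) + (a z - b z * (A / B))
        ≤ a z * (Real.log (a z) - Real.log (b z)) := by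
      intro z hz
      rcases (ha z hz).eq_or_lt with h0 | h0
      · rw [← h0]
        have : 0 ≤ b z * (A / B) := mul_nonneg (hb z hz) (by positivity)
        simpa using this
      · have hbz : 0 < b z := by
          rcases (hb z hz).eq_or_lt with h1 | h1
          · exact absurd (hab z hz h1.symm) h0.ne'
          · exact h1
        have hx : 0 < (a z / b z) / (A / B) := by positivity
        have h2 := Real.one_sub_inv_le_log_of_pos hx
        have h3 : Real.log ((a z / b z) / (A / B))
            = (Real.log (a z) - Real.log (b z)) - (Real.log A - Real.log B) := by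
          rw [Real.log_div (by positivity) (by positivity), Real.log_div h0.ne' hbz.ne',
            Real.log_div h.ne' hBpos.ne']
        rw [h3] at h2
        have h4 := mul_le_mul_of_nonneg_left h2 h0.le
        have h5 : a z * (1 - ((a z / b z) / (A / B))⁻¹) = a z - b z * (A / B) := by
          field_simp
        rw [h5] at h4
        linarith [h4, mul_sub (a z) (Real.log (a z) - Real.log (b z)) (Real.log A - Real.log B)]
    have hsum := Finset.sum_le_sum key
    rw [Finset.sum_add_distrib, ← Finset.sum_mul, Finset.sum_sub_distrib, ← Finset.sum_mul,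
      ← hA, ← hB] at hsum
    have : A - B * (A / B) = 0 := by field_simp; ring
    rw [this, add_zero] at hsum
    exact hsum

end Pool.Agent.helper25_fiid
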