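import Pool.Agent.helper25_fiid.MI

/-!
The chain rule in a random order, and the entropy inequality for functions of i.i.d. seeds on a
group.
-/

set_option linter.unusedSectionVars false

open MeasureTheory Set Function
open scoped ENNReal

namespace Pool.Agent.helper25_fiid

section Chain

variable {Γ E : Type*} [MeasurableSpace E] {ν : Measure E} [IsProbabilityMeasure ν]
variable {α β : Type*} [Fintype α] [MeasurableSpace α] [MeasurableSingletonClass α]
  [Fintype β] [MeasurableSpace β] [MeasurableSingletonClass β]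

lemma gE_inter {W : (Γ → E) → α} {F : Set Γ} (hF : DependsOn W F) (A : Set Γ) :
    gE ν W A = gE ν W (A ∩ F) := by
  unfold gE
  congr 1
  funext a
  congr 1
  funext z
  unfold cp
  congr 1
  ext b
  simp only [mem_ofPred_eq]
  have : W (splice A a b) = W (splice (A ∩ F) a b) := by
    refine hF fun v hv => ?_
    by_cases hA : v ∈ A
    · rw [splice_mem hA, splice_mem (show v ∈ A ∩ F from ⟨hA, hv⟩)]
    · rw [splice_not_mem hA, splice_not_mem (fun h => hA h.1)]
  rw [this]

lemma gE_congr {W : (Γ → E) → α} {F : Set Γ} (hF : DependsOn W F) {A B : Set Γ}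
    (h : A ∩ F = B ∩ F) : gE ν W A = gE ν W B := by
  rw [gE_inter hF A, gE_inter hF B, h]

lemma gE_eq_zero {W : (Γ → E) → α} {F : Set Γ} (hF : DependsOn W F) : gE ν W F = 0 := by
  classical
  unfold gE
  have : ∀ a, ent (cp ν W F a) = 0 := by
    intro a
    unfold ent
    refine Finset.sum_eq_zero fun z _ => ?_
    have h : ∀ b, W (splice F a b) = W a := fun b => hF fun v hv => splice_mem hv
    unfold cp
    simp only [h]
    by_cases hz : W a = z
    · simp [hz]
    · simp [hz]
  simp [this]

/-- the law of a finite-valued function -/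
noncomputable def law (ν : Measure E) (W : (Γ → E) → α) (z : α) : ℝ := (iid Γ ν).real {b | W b = z}

lemma gE_empty (W : (Γ → E) → α) : gE ν W ∅ = ent (law ν W) := by
  unfold gE
  have : ∀ a, cp ν W ∅ a = law ν W := by
    intro a
    funext z
    unfold cp law
    congr 1
    ext b
    have : splice ∅ a b = b := by
      funext v
      exact splice_not_mem (by simp)
    simp [this]
  simp [this]

lemma gE_nonneg (W : (Γ → E) → α) (A : Set Γ) : 0 ≤ gE ν W A :=
  integral_nonneg fun a => ent_nonneg (fun z => cp_nonneg W A a z) (fun z => cp_le_one W A a z)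

lemma gE_le (W : (Γ → E) → α) (A : Set Γ) : gE ν W A ≤ Fintype.card α := by
  unfold gE
  by_cases hi : Integrable (fun a => ent (cp ν W A a)) (iid Γ ν)
  · calc ∫ a, ent (cp ν W A a) ∂(iid Γ ν) ≤ ∫ _a, (Fintype.card α : ℝ) ∂(iid Γ ν) :=
        integral_mono hi (integrable_const _) fun a => ent_le_card fun z => cp_nonneg W A a z
      _ = Fintype.card α := by simp
  · rw [integral_undef hi]; positivity

lemma chain_aux {τ : Type*} [LinearOrder τ] (g : Set Γ → ℝ) (t : Γ → τ) (F : Finset Γ)
    (ht : Set.InjOn t F) :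
    ∑ u ∈ F, (g {w | w ∈ F ∧ t w < t u} - g (insert u {w | w ∈ F ∧ t w < t u}))
      = g ∅ - g F := by
  classical
  induction F using Finset.induction_on_max_value t with
  | empty => simp
  | insert a s ha hmax ih =>
    have hlt : ∀ x ∈ s, t x < t a := fun x hx =>
      lt_of_le_of_ne (hmax x hx) fun h => ha
        ((ht (by simp [hx]) (by simp) h) ▸ hx)
    rw [Finset.sum_insert ha]
    have h1 : {w | w ∈ insert a s ∧ t w < t a} = (s : Set Γ) := by
      ext w
      simp only [Finset.mem_insert, mem_ofPred_eq, Finset.mem_coe]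
      constructor
      · rintro ⟨rfl | h, h2⟩
        · exact absurd h2 (lt_irrefl _)
        · exact h
      · intro h
        exact ⟨Or.inr h, hlt w h⟩
    have h2 : ∀ u ∈ s, {w | w ∈ insert a s ∧ t w < t u} = {w | w ∈ s ∧ t w < t u} := by
      intro u hu
      ext w
      simp only [Finset.mem_insert, mem_ofPred_eq]
      constructor
      · rintro ⟨rfl | h, h2⟩
        · exact absurd h2 (not_lt.2 (hlt u hu).le)
        · exact ⟨h, h2⟩
      · rintro ⟨h, h2⟩
        exact ⟨Or.inr h, h2⟩
    rw [h1, Finset.sum_congr rfl (fun u hu => by rw [h2 u hu]),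
      ih (ht.mono (by simp)), Finset.coe_insert]
    ring

/-- information given by the seed `u`, the seeds with smaller label being known -/
noncomputable def D (ν : Measure E) [IsProbabilityMeasure ν] {τ : Type*} [LinearOrder τ]
    (W : (Γ → E) → α) (t : Γ → τ) (u : Γ) : ℝ :=
  gE ν W {w | t w < t u} - gE ν W (insert u {w | t w < t u})

variable {τ : Type*} [LinearOrder τ]

lemma D_eq {W : (Γ → E) → α} {F : Finset Γ} (hF : DependsOn W (F : Set Γ)) (t : Γ → τ) (u : Γ) :
    D ν W t u = gE ν W {w | w ∈ F ∧ t w < t u} - gE ν W (insert u {w | w ∈ F ∧ t w < t u}) := by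
  unfold D
  rw [gE_congr hF (B := {w | w ∈ F ∧ t w < t u}), gE_congr hF
    (A := insert u {w | t w < t u}) (B := insert u {w | w ∈ F ∧ t w < t u})]
  · ext w
    simp only [mem_inter_iff, mem_insert_iff, mem_ofPred_eq, Finset.mem_coe]
    tauto
  · ext w
    simp only [mem_inter_iff, mem_ofPred_eq, Finset.mem_coe]
    tauto

lemma chain_rule {W : (Γ → E) → α} {F : Finset Γ} (hF : DependsOn W (F : Set Γ)) {t : Γ → τ}
    (ht : Set.InjOn t F) : ∑ u ∈ F, D ν W t u = ent (law ν W) := by
  have h1 : ∑ u ∈ F, D ν W t u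
      = ∑ u ∈ F, (gE ν W {w | w ∈ F ∧ t w < t u} - gE ν W (insert u {w | w ∈ F ∧ t w < t u})) :=
    Finset.sum_congr rfl fun u _ => D_eq hF t u
  rw [h1, chain_aux (fun A => gE ν W A) t F ht, gE_empty, gE_eq_zero hF, sub_zero]

lemma D_nonneg {W : (Γ → E) → α} (hW : Measurable W) (t : Γ → τ) (u : Γ) : 0 ≤ D ν W t u :=
  gE_sub_nonneg hW _ _

lemma D_le {W : (Γ → E) → α} (t : Γ → τ) (u : Γ) :
    D ν W t u ≤ Fintype.card α := by
  unfold D
  have := gE_le (ν := ν) W {w | t w < t u}
  have := gE_nonneg (ν := ν) W (insert u {w | t w < t u})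
  linarith

lemma D_data {f : α → β} (hf : Measurable f) {W : (Γ → E) → α} (hW : Measurable W)
    (t : Γ → τ) (u : Γ) : D ν (f ∘ W) t u ≤ D ν W t u :=
  gE_data_processing f hf hW _ _

lemma D_eq_zero {W : (Γ → E) → α} {F : Set Γ} (hF : DependsOn W F) (t : Γ → τ) {u : Γ}
    (hu : u ∉ F) : D ν W t u = 0 := by
  unfold D
  rw [gE_congr hF (A := {w | t w < t u}) (B := insert u {w | t w < t u}), sub_self]
  ext w
  simp only [mem_inter_iff, mem_ofPred_eq, mem_insert_iff]
  constructor
  · rintro ⟨h1, h2⟩; exact ⟨Or.inr h1, h2⟩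
  · rintro ⟨rfl | h1, h2⟩
    · exact absurd h2 hu
    · exact ⟨h1, h2⟩

/-- Labels. -/
abbrev Lab := unitInterval

/-- law of i.i.d. uniform labels -/
noncomputable abbrev Q (Γ : Type*) : Measure (Γ → Lab) := iid Γ (volume : Measure Lab)

lemma measurable_D {W : (Γ → E) → α} {F : Finset Γ} (hF : DependsOn W (F : Set Γ)) (u : Γ) :
    Measurable (fun t : Γ → Lab => D ν W t u) := by
  classical
  let H : (F → Bool) → ℝ := fun r =>
    gE ν W {w | ∃ h : w ∈ F, r ⟨w, h⟩ = true} - gE ν W (insert u {w | ∃ h : w ∈ F, r ⟨w, h⟩ = true})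
  let κ : (Γ → Lab) → (F → Bool) := fun t w => decide (t w < t u)
  have h : (fun t : Γ → Lab => D ν W t u) = H ∘ κ := by
    funext t
    have : {w | w ∈ F ∧ t w < t u} = {w | ∃ h : w ∈ F, κ t ⟨w, h⟩ = true} := by
      ext w
      simp only [mem_ofPred_eq, κ, decide_eq_true_eq]
      constructor
      · rintro ⟨h1, h2⟩; exact ⟨h1, h2⟩
      · rintro ⟨h1, h2⟩; exact ⟨h1, h2⟩
    rw [D_eq hF, this]
    rfl
  rw [h]
  refine (measurable_of_finite H).comp (measurable_pi_lambda _ fun w => ?_)
  refine measurable_to_bool ?_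
  have : (fun t : Γ → Lab => κ t w) ⁻¹' {true} = {t | t w < t u} := by
    ext t
    simp [κ]
  rw [this]
  exact measurableSet_lt (measurable_pi_apply _) (measurable_pi_apply _)

lemma integrable_D {W : (Γ → E) → α} (hW : Measurable W) {F : Finset Γ}
    (hF : DependsOn W (F : Set Γ)) (u : Γ) :
    Integrable (fun t : Γ → Lab => D ν W t u) (Q Γ) := by
  refine Integrable.of_bound (measurable_D hF u).aestronglyMeasurable (Fintype.card α)
    (ae_of_all _ fun t => ?_)
  rw [Real.norm_eq_abs, abs_of_nonneg (D_nonneg hW t u)]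
  exact D_le t u

/-- expected information given by the seed `u` about `W`, in a uniform random order -/
noncomputable def G (ν : Measure E) [IsProbabilityMeasure ν] (W : (Γ → E) → α) (u : Γ) : ℝ :=
  ∫ t, D ν W t u ∂(Q Γ)

lemma G_nonneg {W : (Γ → E) → α} (hW : Measurable W) (u : Γ) : 0 ≤ G ν W u :=
  integral_nonneg fun t => D_nonneg hW t u

lemma G_eq_zero {W : (Γ → E) → α} {F : Set Γ} (hF : DependsOn W F) {u : Γ}
    (hu : u ∉ F) : G ν W u = 0 := by
  unfold G
  simp [D_eq_zero hF _ hu]

lemma G_data {f : α → β} (hf : Measurable f) {W : (Γ → E) → α} (hW : Measurable W)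
    {F : Finset Γ} (hF : DependsOn W (F : Set Γ)) (u : Γ) : G ν (f ∘ W) u ≤ G ν W u := by
  have hF' : DependsOn (f ∘ W) (F : Set Γ) := fun x y h => by
    simp only [comp_apply]
    rw [hF h]
  exact integral_mono (integrable_D (hf.comp hW) hF' u) (integrable_D hW hF u)
    fun t => D_data hf hW t u

lemma ae_injective [Countable Γ] : ∀ᵐ t ∂(Q Γ), Injective t := by
  have h : ∀ᵐ t ∂(Q Γ), ∀ u w : Γ, u ≠ w → t u ≠ t w := by
    rw [ae_all_iff]
    intro u
    rw [ae_all_iff]
    intro w
    by_cases huw : u = w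
    · exact ae_of_all _ fun t h => absurd huw h
    · have hmap := Measure.infinitePi_map_eval_prod (P := fun _ : Γ => (volume : Measure Lab)) huw
      have hdiag : ((volume : Measure Lab).prod (volume : Measure Lab)) {p | p.1 = p.2} = 0 := by
        rw [Measure.prod_apply (measurableSet_eq_fun measurable_fst measurable_snd)]
        have : ∀ x : Lab, (volume : Measure Lab) (Prod.mk x ⁻¹' {p : Lab × Lab | p.1 = p.2}) = 0 := by
          intro x
          have : Prod.mk x ⁻¹' {p : Lab × Lab | p.1 = p.2} = {x} := by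
            ext y
            simp [eq_comm]
          rw [this]
          exact measure_singleton x
        simp
      have hz : (Q Γ) {t | t u = t w} = 0 := by
        rw [← hmap, Measure.map_apply (by fun_prop)
          (measurableSet_eq_fun measurable_fst measurable_snd)] at hdiag
        exact hdiag
      have : ∀ᵐ t ∂(Q Γ), t u ≠ t w := by
        rw [ae_iff]
        simpa using hz
      filter_upwards [this] with t ht _ using ht
  filter_upwards [h] with t ht
  intro u w huw
  by_contra hne
  exact ht u w hne huw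

lemma sum_G [Countable Γ] {W : (Γ → E) → α} (hW : Measurable W) {F : Finset Γ}
    (hF : DependsOn W (F : Set Γ)) : ∑ u ∈ F, G ν W u = ent (law ν W) := by
  unfold G
  rw [← integral_finsetSum _ fun u _ => integrable_D hW hF u]
  have : ∀ᵐ t ∂(Q Γ), ∑ u ∈ F, D ν W t u = ent (law ν W) := by
    filter_upwards [ae_injective (Γ := Γ)] with t ht
    exact chain_rule hF ht.injOn
  rw [integral_congr_ae this]
  simp

end Chain

section Group

variable {Γ E : Type*} [Group Γ] [MeasurableSpace E] {ν : Measure E} [IsProbabilityMeasure ν]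
variable {α β : Type*} [Fintype α] [MeasurableSpace α] [MeasurableSingletonClass α]
  [Fintype β] [MeasurableSpace β] [MeasurableSingletonClass β]

/-- the action of the group on configurations by right translation of the sites -/
def shift {E : Type*} (g : Γ) (ω : Γ → E) : Γ → E := fun v => ω (v * g)

lemma shift_shift {E : Type*} (g h : Γ) (ω : Γ → E) : shift g (shift h ω) = shift (g * h) ω := by
  funext v
  simp [shift, mul_assoc]

lemma shift_one {E : Type*} (ω : Γ → E) : shift (1 : Γ) ω = ω := by
  funext v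
  simp [shift]

lemma measurable_shift (g : Γ) : Measurable (shift g : (Γ → E) → (Γ → E)) :=
  measurable_pi_lambda _ fun _ => measurable_pi_apply _

lemma map_shift (g : Γ) : (iid Γ ν).map (shift g) = iid Γ ν := by
  have := Measure.map_infinitePi_infinitePi_of_inj (P := fun _ : Γ => ν)
    (f := fun v : Γ => v * g) (mul_left_injective g)
  exact this

lemma measurePreserving_shift (g : Γ) : MeasurePreserving (shift g) (iid Γ ν) (iid Γ ν) :=
  ⟨measurable_shift g, map_shift g⟩

lemma shift_splice (h : Γ) (A : Set Γ) (a b : Γ → E) :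
    shift h (splice A a b) = splice {v | v * h ∈ A} (shift h a) (shift h b) := by
  funext v
  by_cases hv : v * h ∈ A
  · rw [splice_mem (show v ∈ {v | v * h ∈ A} from hv)]
    simp only [shift]
    rw [splice_mem hv]
  · rw [splice_not_mem (show v ∉ {v | v * h ∈ A} from hv)]
    simp only [shift]
    rw [splice_not_mem hv]

lemma cp_shift {W : (Γ → E) → α} (hW : Measurable W) (h : Γ) (A : Set Γ) (a : Γ → E) :
    cp ν (W ∘ shift h) A a = cp ν W {v | v * h ∈ A} (shift h a) := by
  funext z
  unfold cp Measure.real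
  have hm : MeasurableSet {b : Γ → E | W (splice {v | v * h ∈ A} (shift h a) b) = z} :=
    (hW.comp (measurable_splice_right _ _)) (measurableSet_singleton z)
  have := (measurePreserving_shift (ν := ν) h).measure_preimage hm.nullMeasurableSet
  rw [← this]
  have hset : {b : Γ → E | (W ∘ shift h) (splice A a b) = z}
      = shift h ⁻¹' {b : Γ → E | W (splice {v | v * h ∈ A} (shift h a) b) = z} := by
    ext b
    simp only [comp_apply, mem_ofPred_eq, mem_preimage, shift_splice]
  rw [hset]

lemma gE_shift {W : (Γ → E) → α} (hW : Measurable W) (h : Γ) (A : Set Γ) :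
    gE ν (W ∘ shift h) A = gE ν W {v | v * h ∈ A} := by
  unfold gE
  conv_rhs => rw [← map_shift (ν := ν) h]
  rw [integral_map (measurable_shift h).aemeasurable
    (measurable_ent fun z => measurable_cp hW _ z).aestronglyMeasurable]
  refine integral_congr_ae (ae_of_all _ fun a => ?_)
  simp only
  rw [cp_shift hW]

lemma D_shift {τ : Type*} [LinearOrder τ] {W : (Γ → E) → α} (hW : Measurable W) (h : Γ)
    (t : Γ → τ) (u : Γ) : D ν (W ∘ shift h) t u = D ν W (shift h t) (u * h⁻¹) := by
  unfold D
  rw [gE_shift hW, gE_shift hW]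
  have h1 : {v | v * h ∈ {w | t w < t u}} = {w | shift h t w < shift h t (u * h⁻¹)} := by
    ext v
    simp [shift]
  have h2 : {v | v * h ∈ insert u {w | t w < t u}}
      = insert (u * h⁻¹) {w | shift h t w < shift h t (u * h⁻¹)} := by
    ext v
    simp only [mem_insert_iff, mem_ofPred_eq, shift, inv_mul_cancel_right]
    rw [eq_mul_inv_iff_mul_eq]
  rw [h1, h2]

lemma G_shift {W : (Γ → E) → α} (hW : Measurable W) {F : Finset Γ}
    (hF : DependsOn W (F : Set Γ)) (h : Γ) (u : Γ) :
    G ν (W ∘ shift h) u = G ν W (u * h⁻¹) := by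
  unfold G
  have hms : (Q Γ).map (shift h) = Q Γ := map_shift (ν := (volume : Measure Lab)) h
  conv_rhs => rw [← hms]
  rw [integral_map (measurable_shift h).aemeasurable (measurable_D hF _).aestronglyMeasurable]
  refine integral_congr_ae (ae_of_all _ fun t => ?_)
  exact D_shift hW h t u

lemma G_shift_one {W : (Γ → E) → α} (hW : Measurable W) {F : Finset Γ}
    (hF : DependsOn W (F : Set Γ)) (h : Γ) :
    G ν (W ∘ shift h) 1 = G ν W h⁻¹ := by
  rw [G_shift hW hF, one_mul]

/-- `∑_v G(W ∘ shift v, 1) = H(W)`, as a sum of extended nonnegative reals -/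
lemma tsum_G_shift [Countable Γ] {W : (Γ → E) → α} (hW : Measurable W) {F : Finset Γ}
    (hF : DependsOn W (F : Set Γ)) :
    ∑' v : Γ, ENNReal.ofReal (G ν (W ∘ shift v) 1) = ENNReal.ofReal (ent (law ν W)) := by
  have h1 : ∑' v : Γ, ENNReal.ofReal (G ν (W ∘ shift v) 1)
      = ∑' v : Γ, ENNReal.ofReal (G ν W v) := by
    rw [← (Equiv.inv Γ).tsum_eq (fun v => ENNReal.ofReal (G ν W v))]
    refine tsum_congr fun v => ?_
    rw [G_shift_one hW hF]
    rfl
  rw [h1, tsum_eq_sum (s := F), ← sum_G hW hF, ENNReal.ofReal_sum_of_nonneg]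
  · intro u _
    exact G_nonneg hW u
  · intro u hu
    rw [G_eq_zero hF (by simpa using hu), ENNReal.ofReal_zero]

end Group

end Pool.Agent.helper25_fiid
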