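import Mathlib

/-!
Definitions used in the statement: invariant processes, factors of i.i.d. and the distance
`d̄₂` on a graph.  A process is represented by its law, a measure on `V → ℝ`.
-/

open MeasureTheory Filter Topology
open scoped ENNReal

namespace Pool.Agent.helper25_fiid

variable {V : Type}

/-- The action of an automorphism `γ` of `G` on labellings of the vertices:
`(γ · x)_v = x_{γ⁻¹ v}`. -/
def act {G : SimpleGraph V} {α : Type} (γ : G ≃g G) (x : V → α) : V → α :=
  fun v => x (γ.symm v)

/-- `μ` is the law of a family of `α`-valued random variables indexed by the vertices of `G`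
whose joint law is preserved by every automorphism of `G`. -/
structure IsInvariantLaw (G : SimpleGraph V) {α : Type} [MeasurableSpace α]
    (μ : Measure (V → α)) : Prop where
  /-- `μ` has total mass one -/
  isProbabilityMeasure : IsProbabilityMeasure μ
  /-- `μ` is preserved by `Aut(G)` -/
  invariant : ∀ γ : G ≃g G, μ.map (act γ) = μ

/-- Every coordinate of the process has finite second moment. -/
def FiniteSecondMoment (μ : Measure (V → ℝ)) : Prop :=
  ∀ v, ∫⁻ x, ENNReal.ofReal ((x v) ^ 2) ∂μ < ∞

/-- The law of i.i.d. uniform `[0,1]` labels on the vertices. -/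
noncomputable def iidUniform (V : Type) : Measure (V → unitInterval) :=
  Measure.infinitePi fun _ : V => (volume : Measure unitInterval)

/-- `μ` is the law of a factor of i.i.d. process on `G`: the law of `Φ(ω)` for a measurable map
`Φ : [0,1]^V → ℝ^V` commuting with the action of `Aut(G)`. -/
def IsFIID (G : SimpleGraph V) (μ : Measure (V → ℝ)) : Prop :=
  ∃ Φ : (V → unitInterval) → (V → ℝ), Measurable Φ ∧
    (∀ (γ : G ≃g G) (ω : V → unitInterval), Φ (act γ ω) = act γ (Φ ω)) ∧
    (iidUniform V).map Φ = μ

/-- The weaker notion in which, for every automorphism, `Φ` commutes with it only almost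
surely. -/
def IsFIIDae (G : SimpleGraph V) (μ : Measure (V → ℝ)) : Prop :=
  ∃ Φ : (V → unitInterval) → (V → ℝ), Measurable Φ ∧
    (∀ γ : G ≃g G, ∀ᵐ ω ∂(iidUniform V), Φ (act γ ω) = act γ (Φ ω)) ∧
    (iidUniform V).map Φ = μ

/-- `π` is the joint law of an invariant coupling `(Y, Y')` of `μ` and `μ'`. -/
def IsInvariantCoupling (G : SimpleGraph V) (μ μ' : Measure (V → ℝ))
    (π : Measure (V → ℝ × ℝ)) : Prop :=
  IsInvariantLaw G π ∧ π.map (fun y v => (y v).1) = μ ∧ π.map (fun y v => (y v).2) = μ'

/-- The distance `d̄₂(μ, μ')`: the square root of the infimum of `E[(Y_o - Y'_o)²]` over all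
invariant couplings. -/
noncomputable def dbar2 (G : SimpleGraph V) (o : V) (μ μ' : Measure (V → ℝ)) : ℝ≥0∞ :=
  (⨅ (π : Measure (V → ℝ × ℝ)) (_ : IsInvariantCoupling G μ μ' π),
    ∫⁻ y, ENNReal.ofReal (((y o).1 - (y o).2) ^ 2) ∂π) ^ (1 / 2 : ℝ)

end Pool.Agent.helper25_fiid
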