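import Pool.Agent.helper25_fiid.Chain

/-!
The entropy inequality for events that are functions of i.i.d. seeds on a group.
-/

set_option linter.unusedSectionVars false

open MeasureTheory Set Function Filter Topology
open scoped ENNReal

namespace Pool.Agent.helper25_fiid

section Approx

variable {Γ E : Type*} [MeasurableSpace E] (ν : Measure E) [IsProbabilityMeasure ν]

lemma isSetAlgebra_measurableCylinders :
    IsSetAlgebra (measurableCylinders (fun _ : Γ => E)) where
  empty_mem := empty_mem_measurableCylinders _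
  compl_mem := fun _ h => compl_mem_measurableCylinders h
  union_mem := fun _ _ h h' => union_mem_measurableCylinders h h'

/-- approximation by events depending on finitely many seeds -/
lemma exists_cylinder_approx {D : Set (Γ → E)} (hD : MeasurableSet D) {ε : ℝ} (hε : 0 < ε) :
    ∃ (F : Finset Γ) (C : Set (Γ → E)), MeasurableSet C ∧
      DependsOn (fun ω => ω ∈ C) (F : Set Γ) ∧ (iid Γ ν).real (symmDiff D C) < ε := by
  have hdense := Measure.MeasureDense.of_generateFrom_isSetAlgebra_finite (iid Γ ν)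
    (isSetAlgebra_measurableCylinders (Γ := Γ) (E := E)) generateFrom_measurableCylinders.symm
  obtain ⟨C, hC, hlt⟩ := hdense.approx D hD (measure_ne_top _ _) ε hε
  obtain ⟨F, S, hS, rfl⟩ := (mem_measurableCylinders C).1 hC
  refine ⟨F, cylinder F S, MeasurableSet.cylinder F hS, ?_, ?_⟩
  · intro x y h
    simp only [mem_cylinder, eq_iff_iff]
    have : F.restrict x = F.restrict y := by
      funext i
      exact h i i.2
    rw [this]
  · rw [Measure.real]
    exact (ENNReal.lt_ofReal_iff_toReal_lt (measure_ne_top _ _)).1 hlt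

end Approx

section Events

variable {Γ E : Type*} [MeasurableSpace E] {ν : Measure E} [IsProbabilityMeasure ν]
variable {ι : Type*} [Fintype ι] [DecidableEq ι]

open Classical in
/-- indicator -/
noncomputable def W1 (D : Set (Γ → E)) : (Γ → E) → Bool := fun ω => decide (ω ∈ D)

lemma measurable_W1 {D : Set (Γ → E)} (hD : MeasurableSet D) : Measurable (W1 D) := by
  refine measurable_to_bool ?_
  have : W1 D ⁻¹' {true} = D := by
    ext ω; simp [W1]
  rwa [this]

lemma ent_law_W1 {D : Set (Γ → E)} (hD : MeasurableSet D) :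
    ent (law ν (W1 D))
      = Real.negMulLog ((iid Γ ν).real D) + Real.negMulLog (1 - (iid Γ ν).real D) := by
  unfold ent
  rw [Fintype.sum_bool]
  have h1 : law ν (W1 D) true = (iid Γ ν).real D := by
    unfold law
    congr 1
    ext ω; simp [W1]
  have h2 : law ν (W1 D) false = 1 - (iid Γ ν).real D := by
    unfold law
    rw [← probReal_compl_eq_one_sub hD]
    congr 1
    ext ω; simp [W1]
  rw [h1, h2]

lemma sum_law {α : Type*} [Fintype α] [MeasurableSpace α] [MeasurableSingletonClass α]
    {W : (Γ → E) → α} (hW : Measurable W) : ∑ z, law ν W z = 1 := by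
  have := sum_measureReal_preimage_singleton (μ := iid Γ ν)
    Finset.univ (f := W) (fun z _ => hW (measurableSet_singleton z))
  simp only [Finset.coe_univ, preimage_univ, probReal_univ] at this
  exact this

/-- Few patterns: the entropy of a vector of bits that vanishes with probability `1 - q`. -/
lemma ent_le_of_vanish {W : (Γ → E) → (ι → Bool)} (hW : Measurable W) :
    ent (law ν W) ≤ Real.negMulLog (1 - (iid Γ ν).real {ω | W ω ≠ fun _ => false})
      + Real.negMulLog ((iid Γ ν).real {ω | W ω ≠ fun _ => false})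
      + (iid Γ ν).real {ω | W ω ≠ fun _ => false} * (Fintype.card ι * Real.log 2) := by
  classical
  set z0 : ι → Bool := fun _ => false with hz0
  set q := (iid Γ ν).real {ω | W ω ≠ z0} with hq
  have hm : MeasurableSet {ω | W ω = z0} := hW (measurableSet_singleton z0)
  have hlaw0 : law ν W z0 = 1 - q := by
    have : {ω | W ω ≠ z0} = {ω | W ω = z0}ᶜ := rfl
    rw [hq, this, probReal_compl_eq_one_sub hm]
    unfold law
    ring
  have hsum : ∑ z ∈ Finset.univ.erase z0, law ν W z = q := by
    have h := sum_law (ν := ν) hW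
    rw [← Finset.add_sum_erase _ _ (Finset.mem_univ z0), hlaw0] at h
    linarith
  have hq0 : 0 ≤ q := measureReal_nonneg
  have hls := log_sum_ineq (Finset.univ.erase z0) (fun z => law ν W z) (fun _ => (1 : ℝ))
    (fun z _ => measureReal_nonneg) (fun _ _ => zero_le_one) (fun _ _ h => absurd h one_ne_zero)
  rw [hsum] at hls
  have hcard : ∑ _z ∈ Finset.univ.erase z0, (1 : ℝ) ≤ (2 : ℝ) ^ (Fintype.card ι) := by
    rw [Finset.sum_const, nsmul_eq_mul, mul_one]
    have : (Finset.univ.erase z0).card ≤ Fintype.card (ι → Bool) := by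
      rw [← Finset.card_univ]
      exact Finset.card_erase_le
    have h2 : Fintype.card (ι → Bool) = 2 ^ Fintype.card ι := by simp
    rw [h2] at this
    exact_mod_cast this
  have hlog : q * Real.log (∑ _z ∈ Finset.univ.erase z0, (1 : ℝ))
      ≤ q * (Fintype.card ι * Real.log 2) := by
    refine mul_le_mul_of_nonneg_left ?_ hq0
    rcases eq_or_lt_of_le (show (0 : ℝ) ≤ ∑ _z ∈ Finset.univ.erase z0, (1 : ℝ) by positivity)
      with h | h
    · rw [← h, Real.log_zero]
      have := Real.log_pos (one_lt_two)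
      positivity
    · calc Real.log (∑ _z ∈ Finset.univ.erase z0, (1 : ℝ))
          ≤ Real.log ((2 : ℝ) ^ (Fintype.card ι)) := Real.log_le_log h hcard
        _ = Fintype.card ι * Real.log 2 := by rw [Real.log_pow]
  unfold ent
  rw [← Finset.add_sum_erase _ _ (Finset.mem_univ z0), hlaw0]
  have h3 : ∑ z ∈ Finset.univ.erase z0, Real.negMulLog (law ν W z)
      = - ∑ z ∈ Finset.univ.erase z0, law ν W z * (Real.log (law ν W z) - Real.log 1) := by
    rw [← Finset.sum_neg_distrib]
    refine Finset.sum_congr rfl fun z _ => ?_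
    rw [Real.log_one, sub_zero, Real.negMulLog]
    ring
  rw [h3]
  have h4 : Real.negMulLog q = - (q * Real.log q) := by rw [Real.negMulLog]; ring
  rw [h4]
  have h5 : q * (Real.log q - Real.log (∑ _z ∈ Finset.univ.erase z0, (1 : ℝ)))
      = q * Real.log q - q * Real.log (∑ _z ∈ Finset.univ.erase z0, (1 : ℝ)) := by ring
  rw [h5] at hls
  linarith

end Events

section Main

variable {Γ E : Type*} [Group Γ] [Countable Γ] [MeasurableSpace E] {ν : Measure E}
  [IsProbabilityMeasure ν]
variable {ι κ : Type*} [Fintype ι] [DecidableEq ι] [Fintype κ]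

/-- the indicators of the translates of `D` by `s i` -/
noncomputable def WS (s : ι → Γ) (D : Set (Γ → E)) : (Γ → E) → (ι → Bool) :=
  fun ω i => W1 D (shift (s i) ω)

lemma measurable_WS (s : ι → Γ) {D : Set (Γ → E)} (hD : MeasurableSet D) :
    Measurable (WS s D) :=
  measurable_pi_lambda _ fun i => (measurable_W1 hD).comp (measurable_shift (s i))

lemma dependsOn_shift {α : Type*} {W : (Γ → E) → α} {F : Finset Γ} [DecidableEq Γ]
    (hF : DependsOn W (F : Set Γ)) (h : Γ) :
    DependsOn (W ∘ shift h) ((F.image (· * h) : Finset Γ) : Set Γ) := by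
  intro x y hxy
  simp only [comp_apply]
  refine hF fun v hv => ?_
  exact hxy (v * h) (by simpa using hv)

lemma dependsOn_WS {s : ι → Γ} {D : Set (Γ → E)} {F : Finset Γ} [DecidableEq Γ]
    (hF : DependsOn (W1 D) (F : Set Γ)) :
    DependsOn (WS s D) ((Finset.univ.biUnion fun i => F.image (· * s i) : Finset Γ) : Set Γ) := by
  intro x y hxy
  funext i
  refine dependsOn_shift hF (s i) fun v hv => hxy v ?_
  simp only [Finset.coe_biUnion, Finset.coe_univ, mem_univ, iUnion_true, mem_iUnion]
  exact ⟨i, hv⟩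

/-- The entropy inequality, for events depending on finitely many seeds. -/
theorem entropy_ineq_finite (s : ι → Γ) (j : Γ × κ → Γ) (hj : Injective j)
    (hjs : ∀ w k, ∃ i, s i * j (w, k) = w) {D : Set (Γ → E)} (hD : MeasurableSet D)
    {F : Finset Γ} (hF : DependsOn (W1 D) (F : Set Γ)) :
    (Fintype.card κ : ℝ) * ent (law ν (W1 D)) ≤ ent (law ν (WS s D)) := by
  classical
  set FS : Finset Γ := Finset.univ.biUnion fun i => F.image (· * s i) with hFS
  have hWS : DependsOn (WS s D) (FS : Set Γ) := dependsOn_WS hF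
  have h1 := tsum_G_shift (ν := ν) (measurable_W1 hD) hF
  have h2 := tsum_G_shift (ν := ν) (measurable_WS s hD) hWS
  have key : ∀ p : Γ × κ, ENNReal.ofReal (G ν (W1 D ∘ shift p.1) 1)
      ≤ ENNReal.ofReal (G ν (WS s D ∘ shift (j p)) 1) := by
    rintro ⟨w, k⟩
    obtain ⟨i, hi⟩ := hjs w k
    refine ENNReal.ofReal_le_ofReal ?_
    have hcomp : W1 D ∘ shift w = (fun z : ι → Bool => z i) ∘ (WS s D ∘ shift (j (w, k))) := by
      funext ω
      simp only [comp_apply, WS, shift_shift, hi]
    simp only [hcomp]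
    exact G_data (measurable_pi_apply i) ((measurable_WS s hD).comp (measurable_shift _))
      (dependsOn_shift hWS (j (w, k))) 1
  have h3 : (Fintype.card κ : ℝ≥0∞) * ENNReal.ofReal (ent (law ν (W1 D)))
      ≤ ENNReal.ofReal (ent (law ν (WS s D))) := by
    calc (Fintype.card κ : ℝ≥0∞) * ENNReal.ofReal (ent (law ν (W1 D)))
        = ∑' p : Γ × κ, ENNReal.ofReal (G ν (W1 D ∘ shift p.1) 1) := by
          rw [ENNReal.tsum_prod' , ← h1, ← ENNReal.tsum_mul_left]
          refine tsum_congr fun v => ?_
          rw [tsum_fintype]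
          simp only [Finset.sum_const, Finset.card_univ, nsmul_eq_mul]
      _ ≤ ∑' p : Γ × κ, ENNReal.ofReal (G ν (WS s D ∘ shift (j p)) 1) :=
          ENNReal.tsum_le_tsum key
      _ ≤ ∑' v : Γ, ENNReal.ofReal (G ν (WS s D ∘ shift v) 1) :=
          ENNReal.tsum_comp_le_tsum_of_injective hj _
      _ = ENNReal.ofReal (ent (law ν (WS s D))) := h2
  have hn1 : 0 ≤ ent (law ν (W1 D)) :=
    ent_nonneg (fun _ => measureReal_nonneg) (fun _ => measureReal_le_one)
  have hn2 : 0 ≤ ent (law ν (WS s D)) :=
    ent_nonneg (fun _ => measureReal_nonneg) (fun _ => measureReal_le_one)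
  have h4 : (Fintype.card κ : ℝ≥0∞) = ENNReal.ofReal (Fintype.card κ : ℝ) := by
    rw [ENNReal.ofReal_natCast]
  rw [h4, ← ENNReal.ofReal_mul (by positivity)] at h3
  exact (ENNReal.ofReal_le_ofReal_iff hn2).1 h3

/-- The same in terms of `p = P(D)` and `q = P(some translate occurs)`. -/
theorem entropy_ineq_cyl (s : ι → Γ) (j : Γ × κ → Γ) (hj : Injective j)
    (hjs : ∀ w k, ∃ i, s i * j (w, k) = w) {D : Set (Γ → E)} (hD : MeasurableSet D)
    {F : Finset Γ} (hF : DependsOn (W1 D) (F : Set Γ)) :
    (Fintype.card κ : ℝ) * (Real.negMulLog ((iid Γ ν).real D)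
        + Real.negMulLog (1 - (iid Γ ν).real D))
      ≤ Real.negMulLog (1 - (iid Γ ν).real (⋃ i, shift (s i) ⁻¹' D))
        + Real.negMulLog ((iid Γ ν).real (⋃ i, shift (s i) ⁻¹' D))
        + (iid Γ ν).real (⋃ i, shift (s i) ⁻¹' D) * (Fintype.card ι * Real.log 2) := by
  have h1 := entropy_ineq_finite (ν := ν) s j hj hjs hD hF
  rw [ent_law_W1 hD] at h1
  have h2 := ent_le_of_vanish (ν := ν) (measurable_WS s hD)
  have hset : {ω | WS s D ω ≠ fun _ => false} = ⋃ i, shift (s i) ⁻¹' D := by
    ext ω
    simp only [ne_eq, mem_ofPred_eq, mem_iUnion, mem_preimage]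
    rw [funext_iff, not_forall]
    refine exists_congr fun i => ?_
    simp [WS, W1]
  rw [hset] at h2
  exact h1.trans h2

/-- The entropy inequality for every event. -/
theorem entropy_ineq (s : ι → Γ) (j : Γ × κ → Γ) (hj : Injective j)
    (hjs : ∀ w k, ∃ i, s i * j (w, k) = w) {D : Set (Γ → E)} (hD : MeasurableSet D) :
    (Fintype.card κ : ℝ) * (Real.negMulLog ((iid Γ ν).real D)
        + Real.negMulLog (1 - (iid Γ ν).real D))
      ≤ Real.negMulLog (1 - (iid Γ ν).real (⋃ i, shift (s i) ⁻¹' D))
        + Real.negMulLog ((iid Γ ν).real (⋃ i, shift (s i) ⁻¹' D))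
        + (iid Γ ν).real (⋃ i, shift (s i) ⁻¹' D) * (Fintype.card ι * Real.log 2) := by
  classical
  have hex : ∀ n : ℕ, ∃ (F : Finset Γ) (C : Set (Γ → E)), MeasurableSet C ∧
      DependsOn (fun ω => ω ∈ C) (F : Set Γ) ∧
        (iid Γ ν).real (symmDiff D C) < 1 / ((n : ℝ) + 1) := fun n =>
    exists_cylinder_approx ν hD (by positivity)
  choose F C hC hdep hlt using hex
  have hp : Tendsto (fun n => (iid Γ ν).real (C n)) atTop (𝓝 ((iid Γ ν).real D)) := by
    rw [tendsto_iff_dist_tendsto_zero]
    refine squeeze_zero (fun n => dist_nonneg) (fun n => ?_) tendsto_one_div_add_atTop_nhds_zero_nat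
    rw [dist_comm, Real.dist_eq]
    exact (abs_measureReal_sub_le_measureReal_symmDiff hD.nullMeasurableSet
      (hC n).nullMeasurableSet).trans (hlt n).le
  have hq : Tendsto (fun n => (iid Γ ν).real (⋃ i, shift (s i) ⁻¹' (C n))) atTop
      (𝓝 ((iid Γ ν).real (⋃ i, shift (s i) ⁻¹' D))) := by
    rw [tendsto_iff_dist_tendsto_zero]
    have hlim : Tendsto (fun n : ℕ => (Fintype.card ι : ℝ) * (1 / ((n : ℝ) + 1))) atTop
        (𝓝 0) := by
      simpa using tendsto_one_div_add_atTop_nhds_zero_nat.const_mul (Fintype.card ι : ℝ)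
    refine squeeze_zero (fun n => dist_nonneg) (fun n => ?_) hlim
    rw [dist_comm, Real.dist_eq]
    have hmD : MeasurableSet (⋃ i, shift (s i) ⁻¹' D) :=
      MeasurableSet.iUnion fun i => measurable_shift _ hD
    have hmC : MeasurableSet (⋃ i, shift (s i) ⁻¹' (C n)) :=
      MeasurableSet.iUnion fun i => measurable_shift _ (hC n)
    refine (abs_measureReal_sub_le_measureReal_symmDiff hmD.nullMeasurableSet
      hmC.nullMeasurableSet).trans ?_
    have hsub : symmDiff (⋃ i, shift (s i) ⁻¹' D) (⋃ i, shift (s i) ⁻¹' (C n))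
        ⊆ ⋃ i ∈ (Finset.univ : Finset ι), shift (s i) ⁻¹' (symmDiff D (C n)) := by
      intro ω hω
      simp only [mem_symmDiff, mem_iUnion, mem_preimage, Finset.mem_univ, exists_prop,
        true_and] at hω ⊢
      rcases hω with ⟨⟨i, hi⟩, h2⟩ | ⟨⟨i, hi⟩, h2⟩
      · exact ⟨i, Or.inl ⟨hi, fun h => h2 ⟨i, h⟩⟩⟩
      · exact ⟨i, Or.inr ⟨hi, fun h => h2 ⟨i, h⟩⟩⟩
    refine (measureReal_mono hsub (measure_ne_top _ _)).trans ?_
    refine (measureReal_biUnion_finset_le _ _).trans ?_
    have : ∀ i, (iid Γ ν).real (shift (s i) ⁻¹' (symmDiff D (C n))) ≤ 1 / ((n : ℝ) + 1) := by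
      intro i
      unfold Measure.real
      rw [(measurePreserving_shift (ν := ν) (s i)).measure_preimage
        (hD.symmDiff (hC n)).nullMeasurableSet]
      exact (hlt n).le
    calc ∑ i ∈ Finset.univ, (iid Γ ν).real (shift (s i) ⁻¹' (symmDiff D (C n)))
        ≤ ∑ _i ∈ (Finset.univ : Finset ι), (1 / ((n : ℝ) + 1)) :=
          Finset.sum_le_sum fun i _ => this i
      _ = (Fintype.card ι : ℝ) * (1 / ((n : ℝ) + 1)) := by
          rw [Finset.sum_const, Finset.card_univ, nsmul_eq_mul]
  have hineq : ∀ n, (Fintype.card κ : ℝ) * (Real.negMulLog ((iid Γ ν).real (C n))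
        + Real.negMulLog (1 - (iid Γ ν).real (C n)))
      ≤ Real.negMulLog (1 - (iid Γ ν).real (⋃ i, shift (s i) ⁻¹' (C n)))
        + Real.negMulLog ((iid Γ ν).real (⋃ i, shift (s i) ⁻¹' (C n)))
        + (iid Γ ν).real (⋃ i, shift (s i) ⁻¹' (C n)) * (Fintype.card ι * Real.log 2) := by
    intro n
    refine entropy_ineq_cyl s j hj hjs (hC n) (F := F n) ?_
    intro x y hxy
    have := hdep n hxy
    simp only [eq_iff_iff] at this
    simp only [W1, this]
  have hl := (((Real.continuous_negMulLog.tendsto _).comp hp).add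
      ((Real.continuous_negMulLog.tendsto _).comp (hp.const_sub 1))).const_mul
      (Fintype.card κ : ℝ)
  have hr := (((Real.continuous_negMulLog.tendsto _).comp (hq.const_sub 1)).add
      ((Real.continuous_negMulLog.tendsto _).comp hq)).add
      (hq.mul_const (Fintype.card ι * Real.log 2))
  exact le_of_tendsto_of_tendsto' hl hr hineq

end Main

end Pool.Agent.helper25_fiid
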