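import Pool.Agent.helper25_fiid.Basic

/-!
The inverse limit of the compact group of bit configurations under a surjective endomorphism.
-/

set_option linter.unusedSectionVars false

open MeasureTheory Set Function Filter Topology
open scoped ENNReal

namespace Pool.Agent.helper25_fiid

/-- Uniqueness of invariant probability measures, in a form for measures carried by a subgroup. -/
lemma unique_invariant {Ω : Type*} [AddCommGroup Ω] [MeasurableSpace Ω] [MeasurableAdd₂ Ω]
    (μ ν : Measure Ω) [IsProbabilityMeasure μ] [IsProbabilityMeasure ν]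
    (hμ : ∀ᵐ y ∂ν, μ.map (y + ·) = μ) (hν : ∀ᵐ x ∂μ, ν.map (x + ·) = ν) : μ = ν := by
  ext S hS
  have hm : MeasurableSet {p : Ω × Ω | p.1 + p.2 ∈ S} := (measurable_fst.add measurable_snd) hS
  have h1 : (μ.prod ν) {p : Ω × Ω | p.1 + p.2 ∈ S} = ν S := by
    rw [Measure.prod_apply hm]
    have : ∀ᵐ x ∂μ, ν (Prod.mk x ⁻¹' {p : Ω × Ω | p.1 + p.2 ∈ S}) = ν S := by
      filter_upwards [hν] with x hx
      conv_rhs => rw [← hx]
      rw [Measure.map_apply (measurable_const_add x) hS]
      rfl
    rw [lintegral_congr_ae this]
    simp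
  have h2 : (μ.prod ν) {p : Ω × Ω | p.1 + p.2 ∈ S} = μ S := by
    rw [Measure.prod_apply_symm hm]
    have : ∀ᵐ y ∂ν, μ ((fun x => (x, y)) ⁻¹' {p : Ω × Ω | p.1 + p.2 ∈ S}) = μ S := by
      filter_upwards [hμ] with y hy
      conv_rhs => rw [← hy]
      rw [Measure.map_apply (measurable_const_add y) hS]
      congr 1
      ext x
      simp [add_comm]
    rw [lintegral_congr_ae this]
    simp
  rw [← h1, h2]

section Unif

/-- a fair bit from a uniform variable -/
noncomputable def bit (t : unitInterval) : ZMod 2 := if (t : ℝ) < 1 / 2 then 1 else 0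

lemma measurable_bit : Measurable bit := by
  unfold bit
  exact Measurable.ite (measurableSet_lt (by fun_prop) measurable_const) measurable_const
    measurable_const

/-- the law of a fair bit -/
noncomputable def unifZ : Measure (ZMod 2) := (volume : Measure unitInterval).map bit

instance : IsProbabilityMeasure unifZ :=
  Measure.isProbabilityMeasure_map measurable_bit.aemeasurable

lemma unifZ_one : unifZ {1} = ENNReal.ofReal (1 / 2) := by
  unfold unifZ
  rw [Measure.map_apply measurable_bit (measurableSet_singleton _)]
  have : bit ⁻¹' {1} = Iio (⟨1 / 2, by norm_num, by norm_num⟩ : unitInterval) := by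
    ext t
    simp only [mem_preimage, mem_singleton_iff, mem_Iio, bit, ← Subtype.coe_lt_coe]
    split_ifs with h
    · simpa using h
    · simpa using h
  rw [this, unitInterval.volume_Iio]

lemma unifZ_zero : unifZ {0} = ENNReal.ofReal (1 / 2) := by
  have h1 : unifZ ({0} : Set (ZMod 2)) + unifZ ({1} : Set (ZMod 2)) = 1 := by
    have hu : ({0} : Set (ZMod 2)) ∪ {1} = univ := by
      ext t
      have ht : t = 0 ∨ t = 1 := by
        revert t
        decide
      simpa [or_comm] using ht
    rw [← measure_union (by simp) (measurableSet_singleton _), hu, measure_univ]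
  rw [unifZ_one] at h1
  have h2 : ENNReal.ofReal (1 / 2) + ENNReal.ofReal (1 / 2) = 1 := by
    rw [← ENNReal.ofReal_add (by norm_num) (by norm_num)]
    norm_num
  rw [← h2] at h1
  exact (ENNReal.add_left_inj ENNReal.ofReal_ne_top).1 h1

lemma unifZ_add (a : ZMod 2) : unifZ.map (a + ·) = unifZ := by
  refine Measure.ext_of_singleton fun t => ?_
  rw [Measure.map_apply (measurable_const_add a) (measurableSet_singleton _)]
  have h : ∀ s : ZMod 2, unifZ {s} = ENNReal.ofReal (1 / 2) := by
    intro s
    fin_cases s
    · exact unifZ_zero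
    · exact unifZ_one
  have : (fun x : ZMod 2 => a + x) ⁻¹' {t} = {t - a} := by
    ext x
    simp only [mem_preimage, mem_singleton_iff]
    constructor
    · rintro rfl; ring
    · rintro rfl; ring
  rw [this, h, h]

lemma iid_unifZ_add {V : Type*} (g : V → ZMod 2) :
    (iid V unifZ).map (g + ·) = iid V unifZ := by
  have := Measure.infinitePi_map_pi (fun _ : V => unifZ) (f := fun v x => g v + x)
    (fun v => measurable_const_add (g v))
  simp only [unifZ_add] at this
  exact this

end Unif

section Limit

variable {V : Type*} [Countable V]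

/-- configurations of bits -/
abbrev Cfg (V : Type*) := V → ZMod 2

/-- sequences `x⁰, x¹, …` with `A x^{m+1} = x^m` -/
def limG (A : Cfg V →+ Cfg V) : AddSubgroup (ℕ → Cfg V) where
  carrier := {x | ∀ m, A (x (m + 1)) = x m}
  zero_mem' := fun m => by simp
  add_mem' := fun {x y} hx hy m => by
    simp only [Pi.add_apply, map_add]
    rw [hx m, hy m]
  neg_mem' := fun {x} hx m => by
    simp only [Pi.neg_apply, map_neg]
    rw [hx m]

lemma mem_limG {A : Cfg V →+ Cfg V} {x : ℕ → Cfg V} :
    x ∈ limG A ↔ ∀ m, A (x (m + 1)) = x m := Iff.rfl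

variable (A : Cfg V →+ Cfg V)

lemma isClosed_limG (hA : Continuous A) : IsClosed (limG A : Set (ℕ → Cfg V)) := by
  have : (limG A : Set (ℕ → Cfg V)) = ⋂ m, {x | A (x (m + 1)) = x m} := by
    ext x
    simp [mem_limG]
  rw [this]
  exact isClosed_iInter fun m => isClosed_eq (hA.comp (continuous_apply (m + 1)))
    (continuous_apply m)

lemma exists_limit_measure (hA : Continuous A) :
    ∃ P : Measure (ℕ → Cfg V), IsProbabilityMeasure P ∧ (∀ᵐ x ∂P, x ∈ limG A) ∧
      ∀ h ∈ limG A, P.map (h + ·) = P := by
  have hcl := isClosed_limG A hA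
  have : CompactSpace (limG A) := isCompact_iff_compactSpace.1 hcl.isCompact
  let μ : Measure (limG A) := Measure.addHaarMeasure ⊤
  have : IsProbabilityMeasure μ := ⟨by
    have := Measure.addHaarMeasure_self (G := limG A) (K₀ := ⊤)
    simpa using this⟩
  have hmeas : Measurable (Subtype.val : limG A → (ℕ → Cfg V)) := measurable_subtype_coe
  refine ⟨μ.map Subtype.val, Measure.isProbabilityMeasure_map hmeas.aemeasurable, ?_, ?_⟩
  · exact (ae_map_iff hmeas.aemeasurable (p := fun x => x ∈ limG A) hcl.measurableSet).2
      (ae_of_all _ fun x => x.2)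
  · intro h hh
    rw [Measure.map_map (measurable_const_add h) hmeas]
    have : ((h + ·) : (ℕ → Cfg V) → (ℕ → Cfg V)) ∘ (Subtype.val : limG A → (ℕ → Cfg V))
        = Subtype.val ∘ ((⟨h, hh⟩ : limG A) + ·) := rfl
    rw [this, ← Measure.map_map hmeas (measurable_const_add _),
      map_add_left_eq_self]

/-- the law of the inverse limit -/
noncomputable def limP (hA : Continuous A) : Measure (ℕ → Cfg V) :=
  (exists_limit_measure A hA).choose

variable {A}

instance (hA : Continuous A) : IsProbabilityMeasure (limP A hA) :=
  (exists_limit_measure A hA).choose_spec.1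

lemma limP_mem (hA : Continuous A) : ∀ᵐ x ∂(limP A hA), x ∈ limG A :=
  (exists_limit_measure A hA).choose_spec.2.1

lemma limP_add (hA : Continuous A) {h : ℕ → Cfg V} (hh : h ∈ limG A) :
    (limP A hA).map (h + ·) = limP A hA :=
  (exists_limit_measure A hA).choose_spec.2.2 h hh

/-- surjectivity of the coordinate projections of the inverse limit -/
lemma exists_mem_limG (hsurj : Surjective A) (m : ℕ) (g : Cfg V) : ∃ h ∈ limG A, h m = g := by
  choose R hR using hsurj
  refine ⟨fun k => if k ≤ m then A^[m - k] g else R^[k - m] g, ?_, by simp⟩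
  intro k
  rcases lt_trichotomy k m with h | h | h
  · have h1 : k + 1 ≤ m := h
    have h2 : k ≤ m := h.le
    simp only [h1, h2, if_true]
    have : m - k = (m - (k + 1)) + 1 := by omega
    rw [this, iterate_succ_apply']
  · subst h
    simp [hR]
  · have h1 : ¬ (k + 1 ≤ m) := by omega
    have h2 : ¬ (k ≤ m) := by omega
    simp only [h1, h2, if_false]
    have : k + 1 - m = (k - m) + 1 := by omega
    rw [this, iterate_succ_apply', hR]

/-- every coordinate of the inverse limit is i.i.d. fair bits -/
lemma limP_coord (hA : Continuous A) (hsurj : Surjective A) (m : ℕ) :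
    (limP A hA).map (fun x => x m) = iid V unifZ := by
  have : IsProbabilityMeasure ((limP A hA).map (fun x => x m)) :=
    Measure.isProbabilityMeasure_map (measurable_pi_apply m).aemeasurable
  refine unique_invariant _ _ (ae_of_all _ fun g => ?_) (ae_of_all _ fun g => iid_unifZ_add g)
  obtain ⟨h, hh, hm⟩ := exists_mem_limG hsurj m g
  rw [Measure.map_map (measurable_const_add g) (measurable_pi_apply m)]
  have : ((g + ·) : Cfg V → Cfg V) ∘ (fun x : ℕ → Cfg V => x m)
      = (fun x : ℕ → Cfg V => x m) ∘ (h + ·) := by
    funext x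
    simp [hm]
  rw [this, ← Measure.map_map (measurable_pi_apply m) (measurable_const_add h), limP_add hA hh]

/-- relabelling the sites by a bijection commuting with `A` -/
def relabel {V : Type*} (γ : V ≃ V) (x : ℕ → Cfg V) : ℕ → Cfg V := fun m v => x m (γ v)

lemma measurable_relabel {V : Type*} (γ : V ≃ V) : Measurable (relabel γ) :=
  measurable_pi_lambda _ fun m => measurable_pi_lambda _ fun v =>
    (measurable_pi_apply (γ v)).comp (measurable_pi_apply m)

lemma relabel_mem {γ : V ≃ V} (hγ : ∀ (x : Cfg V) v, A (fun w => x (γ w)) v = A x (γ v))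
    {x : ℕ → Cfg V} (hx : x ∈ limG A) : relabel γ x ∈ limG A := by
  intro m
  funext v
  have := hγ (x (m + 1)) v
  rw [hx m] at this
  exact this

lemma limP_relabel (hA : Continuous A) {γ : V ≃ V}
    (hγ : ∀ (x : Cfg V) v, A (fun w => x (γ w)) v = A x (γ v)) :
    (limP A hA).map (relabel γ) = limP A hA := by
  have : IsProbabilityMeasure ((limP A hA).map (relabel γ)) :=
    Measure.isProbabilityMeasure_map (measurable_relabel γ).aemeasurable
  have hγ' : ∀ (x : Cfg V) v, A (fun w => x (γ.symm w)) v = A x (γ.symm v) := by
    intro x v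
    have := hγ (fun w => x (γ.symm w)) (γ.symm v)
    simp only [Equiv.symm_apply_apply, Equiv.apply_symm_apply] at this
    exact this.symm
  refine unique_invariant _ _ ?_ ?_
  · filter_upwards [limP_mem hA] with h hh
    rw [Measure.map_map (measurable_const_add h) (measurable_relabel γ)]
    have : ((h + ·) : (ℕ → Cfg V) → (ℕ → Cfg V)) ∘ relabel γ
        = relabel γ ∘ (relabel γ.symm h + ·) := by
      funext x m v
      simp [relabel]
    rw [this, ← Measure.map_map (measurable_relabel γ) (measurable_const_add _),
      limP_add hA (relabel_mem hγ' hh)]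
  · have h1 : ∀ᵐ y ∂((limP A hA).map (relabel γ)), y ∈ limG A := by
      refine (ae_map_iff (measurable_relabel γ).aemeasurable (p := fun x => x ∈ limG A)
        (isClosed_limG A hA).measurableSet).2 ?_
      filter_upwards [limP_mem hA] with x hx
      exact relabel_mem hγ hx
    filter_upwards [h1] with x hx
    exact limP_add hA hx

end Limit

end Pool.Agent.helper25_fiid
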