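import Pool.Agent.helper25_fiid.Noise

/-!
No infinite chain of fair bits that are functions of i.i.d. seeds, each being the parity of
translates of the next one.
-/

set_option linter.unusedSectionVars false

open MeasureTheory Set Function Filter Topology
open scoped ENNReal

namespace Pool.Agent.helper25_fiid

/-- the analytic core -/
lemma no_eta (η : ℕ → ℝ → ℝ) (p : ℝ) (hp : 0 < p)
    (h0 : ∀ m, η m 0 = 0)
    (hsub : ∀ m δ₁ δ₂, 0 ≤ δ₁ → δ₁ ≤ δ₂ → δ₂ ≤ 1 → |η m δ₂ - η m δ₁| ≤ η m (δ₂ - δ₁))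
    (hsmall : ∀ m ε, 0 < ε → ∃ δ₀ : ℝ, 0 < δ₀ ∧ δ₀ ≤ 1 ∧ ∀ δ, 0 ≤ δ → δ ≤ δ₀ → η m δ ≤ ε)
    (hexp : ∀ m δ, 0 ≤ δ → δ ≤ 1 → η (m + 1) δ ≤ p → (3 / 2) * η (m + 1) δ ≤ η m δ)
    (hone : ∀ m (N : ℕ), 0 < N → 1 / 2 ≤ N * η m (1 / N)) : False := by
  obtain ⟨δ₀, hδ₀, hδ₁, hη₀⟩ := hsmall 0 p hp
  obtain ⟨N, hN⟩ := exists_nat_gt (1 / δ₀)
  have hNpos' : (0 : ℝ) < N := lt_trans (by positivity) hN
  have hNpos : 0 < N := by exact_mod_cast hNpos'
  have hNle : 1 / (N : ℝ) ≤ δ₀ := by
    rw [div_le_iff₀ hNpos']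
    rw [div_lt_iff₀ hδ₀] at hN
    linarith
  have hcont : ∀ m, ContinuousOn (η m) (Icc 0 1) := by
    intro m
    rw [Metric.continuousOn_iff]
    intro x hx ε hε
    obtain ⟨d, hd, hd1, hd2⟩ := hsmall m (ε / 2) (by positivity)
    refine ⟨d, hd, fun y hy hyx => ?_⟩
    rw [Real.dist_eq] at hyx ⊢
    rcases le_total x y with h | h
    · have h1 := hsub m x y hx.1 h hy.2
      have h2 := hd2 (y - x) (by linarith) (by rw [abs_of_nonneg (by linarith)] at hyx; exact hyx.le)
      linarith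
    · have h1 := hsub m y x hy.1 h hx.2
      rw [abs_sub_comm] at h1
      have h2 := hd2 (x - y) (by linarith)
        (by rw [abs_sub_comm, abs_of_nonneg (by linarith)] at hyx; exact hyx.le)
      linarith
  have hle : ∀ m δ, 0 ≤ δ → δ ≤ 1 / (N : ℝ) → η m δ ≤ p := by
    intro m
    induction m with
    | zero => intro δ h1 h2; exact hη₀ δ h1 (h2.trans hNle)
    | succ m ih =>
      intro δ h1 h2
      by_contra hcon
      rw [not_le] at hcon
      have hδ1 : δ ≤ 1 := h2.trans (hNle.trans hδ₁)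
      have hc : ContinuousOn (η (m + 1)) (Icc 0 δ) :=
        (hcont (m + 1)).mono (Icc_subset_Icc_right hδ1)
      have himg := intermediate_value_Icc h1 hc
      have hpm : p ∈ Icc (η (m + 1) 0) (η (m + 1) δ) := ⟨by rw [h0]; exact hp.le, hcon.le⟩
      obtain ⟨δ', hδ', hval⟩ := himg hpm
      have h3 := hexp m δ' hδ'.1 (hδ'.2.trans hδ1) hval.le
      have h4 := ih δ' hδ'.1 (hδ'.2.trans h2)
      rw [hval] at h3
      linarith
  have hN0 : 0 ≤ 1 / (N : ℝ) := by positivity
  have hN1 : 1 / (N : ℝ) ≤ 1 := hNle.trans hδ₁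
  have hdecay : ∀ m, η m (1 / N) ≤ (2 / 3) ^ m * p := by
    intro m
    induction m with
    | zero => simpa using hle 0 (1 / N) hN0 le_rfl
    | succ m ih =>
      have h1 := hexp m (1 / N) hN0 hN1 (hle (m + 1) _ hN0 le_rfl)
      rw [pow_succ]
      linarith
  have hlim : Tendsto (fun m : ℕ => (N : ℝ) * ((2 / 3 : ℝ) ^ m * p)) atTop (𝓝 0) := by
    have := (tendsto_pow_atTop_nhds_zero_of_lt_one (show (0 : ℝ) ≤ 2 / 3 by norm_num)
      (by norm_num)).mul_const p
    simpa using this.const_mul (N : ℝ)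
  have hge : ∀ m : ℕ, (1 / 2 : ℝ) ≤ (N : ℝ) * ((2 / 3 : ℝ) ^ m * p) := fun m =>
    (hone m N hNpos).trans (mul_le_mul_of_nonneg_left (hdecay m) hNpos'.le)
  have := ge_of_tendsto' hlim hge
  linarith

section Parity

/-- parity of two finite sets differing in exactly one element -/
lemma odd_card_of_symmDiff {ι : Type*} [DecidableEq ι] {A B : Finset ι} {i : ι}
    (h : ∀ k, (k ∈ A ↔ k ∈ B) ↔ k ≠ i) : Odd A.card ↔ ¬ Odd B.card := by
  by_cases hi : i ∈ A
  · have hiB : i ∉ B := fun hB => ((h i).1 ⟨fun _ => hB, fun _ => hi⟩) rfl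
    have : A = insert i B := by
      ext k
      by_cases hk : k = i
      · subst hk; simp [hi]
      · rw [Finset.mem_insert]
        have := (h k).2 hk
        simp [this, hk]
    rw [this, Finset.card_insert_of_notMem hiB]
    simp [Nat.odd_add_one]
  · have hiB : i ∈ B := by
      by_contra hB
      exact ((h i).1 ⟨fun h => absurd h hi, fun h => absurd h hB⟩) rfl
    have : B = insert i A := by
      ext k
      by_cases hk : k = i
      · subst hk; simp [hiB]
      · rw [Finset.mem_insert]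
        have := (h k).2 hk
        simp [this, hk]
    rw [this, Finset.card_insert_of_notMem hi]
    simp [Nat.odd_add_one]

end Parity

section Main

variable {Γ E : Type*} [Group Γ] [Countable Γ] [MeasurableSpace E] {ν : Measure E}
  [IsProbabilityMeasure ν]
variable {ι κ : Type*} [Fintype ι] [DecidableEq ι] [Fintype κ]

lemma mixΩ_shift (δ : ℝ) (g : Γ) (ω : Γ → Seed E) :
    mixΩ δ (shift g ω) = shift g (mixΩ δ ω) := rfl

open Classical in
/-- The parity relation: `S` occurs iff an odd number of the translates of `S'` occur. -/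
def ParityRel (s : ι → Γ) (S S' : Set (Γ → E)) (ω : Γ → E) : Prop :=
  ω ∈ S ↔ Odd (Finset.univ.filter fun i => shift (s i) ω ∈ S').card

theorem no_solution (s : ι → Γ) (j : Γ × κ → Γ) (hj : Injective j)
    (hjs : ∀ w k, ∃ i, s i * j (w, k) = w) (hκ : Fintype.card ι + 2 ≤ 2 * Fintype.card κ)
    (S : ℕ → Set (Γ → E)) (hS : ∀ m, MeasurableSet (S m))
    (hhalf : ∀ m, (iid Γ ν).real (S m) = 1 / 2)
    (hrel : ∀ m, ∀ᵐ ω ∂(iid Γ ν), ParityRel s (S m) (S (m + 1)) ω) : False := by
  classical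
  refine no_eta (fun m δ => eta ν (S m) δ) (pstar (Fintype.card ι)) (pstar_pos _)
    (fun m => eta_zero ν (S m)) (fun m δ₁ δ₂ h0 h12 h1 => eta_sub_le ν (hS m) h0 h12 h1)
    (fun m ε hε => eta_small ν (hS m) hε) ?_ ?_
  · intro m δ h0 h1 hp
    have hexp := sparse_expansion (ν := seedLaw ν) s j hj hjs hκ (measurableSet_Dis (hS (m + 1)) 0 δ)
      hp
    refine hexp.trans ?_
    unfold eta
    have hr0 : ∀ᵐ ω ∂(iid Γ (seedLaw ν)), ParityRel s (S m) (S (m + 1)) (mixΩ 0 ω) := by
      have := hrel m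
      rw [← map_mixΩ ν (Γ := Γ) le_rfl zero_le_one] at this
      exact ae_of_ae_map (measurable_mixΩ 0).aemeasurable this
    have hrδ : ∀ᵐ ω ∂(iid Γ (seedLaw ν)), ParityRel s (S m) (S (m + 1)) (mixΩ δ ω) := by
      have := hrel m
      rw [← map_mixΩ ν (Γ := Γ) h0 h1] at this
      exact ae_of_ae_map (measurable_mixΩ δ).aemeasurable this
    refine ENNReal.toReal_mono (measure_ne_top _ _) (measure_mono_ae ?_)
    filter_upwards [hr0, hrδ] with ω hω0 hωδ
    intro hex
    obtain ⟨i, hi, huniq⟩ := hex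
    have hpar : Odd (Finset.univ.filter fun i => shift (s i) (mixΩ 0 ω) ∈ S (m + 1)).card
        ↔ ¬ Odd (Finset.univ.filter fun i => shift (s i) (mixΩ δ ω) ∈ S (m + 1)).card := by
      refine odd_card_of_symmDiff (i := i) fun k => ?_
      simp only [Finset.mem_filter, Finset.mem_univ, true_and]
      have hk : shift (s k) ω ∈ Dis (S (m + 1)) 0 δ ↔
          ¬ (shift (s k) (mixΩ 0 ω) ∈ S (m + 1) ↔ shift (s k) (mixΩ δ ω) ∈ S (m + 1)) := by
        simp only [Dis, mem_symmDiff, mem_preimage, mixΩ_shift]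
        tauto
      constructor
      · rintro h rfl
        exact (hk.1 hi) h
      · intro hne
        by_contra hcon
        exact hne (huniq k (hk.2 hcon))
    show ω ∈ Dis (S m) 0 δ
    simp only [Dis, mem_symmDiff, mem_preimage]
    unfold ParityRel at hω0 hωδ
    rw [hω0, hωδ, hpar]
    tauto
  · intro m N hN
    have h1 := eta_step ν (hS m) N hN
    have h2 := eta_one ν (hS m)
    rw [hhalf m] at h2
    rw [h2] at h1
    norm_num at h1 ⊢
    linarith

end Main

end Pool.Agent.helper25_fiid
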