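import Pool.Agent.helper25_fiid.Tree

/-!
The mod-2 sum over the sphere of radius two in the regular tree.
-/

open Set Function

namespace Pool.Agent.helper25_fiid

namespace RW

variable {n : ℕ}

lemma toggle_injective (a : Fin (n + 1)) : Injective (toggle a : RW n → RW n) := by
  intro x y h
  rw [← toggle_toggle a x, h, toggle_toggle]

/-- right multiplication is an automorphism of the tree -/
def rmul (g : RW n) : tree n ≃g tree n where
  toEquiv := Equiv.mulRight g
  map_rel_iff' := by
    intro x y
    simp only [Equiv.coe_mulRight, tree_adj]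
    refine exists_congr fun a => ?_
    rw [← toggle_mul]
    exact mul_left_inj g

lemma rmul_apply (g x : RW n) : rmul g x = x * g := rfl

lemma rmul_symm_apply (g x : RW n) : (rmul g).symm x = x * g⁻¹ := rfl

/-- the elements of length two, indexed -/
def two (p : Fin (n + 1) × Fin n) : RW n := gen (p.1.succAbove p.2) * gen p.1

lemma two_mul' (p : Fin (n + 1) × Fin n) (v : RW n) :
    two p * v = toggle (p.1.succAbove p.2) (toggle p.1 v) := by
  unfold two
  rw [mul_assoc, gen_mul, gen_mul]

/-- first letter, `0` for the empty word -/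
def hd (w : RW n) : Fin (n + 1) := w.1.headD 0

lemma toggle_of_ne_hd {a : Fin (n + 1)} {w : RW n} (h : a ≠ hd w) : (toggle a w).1 = a :: w.1 := by
  rcases len_toggle a w with ⟨_, h2⟩ | ⟨_, h2⟩
  · exfalso
    apply h
    unfold hd
    rw [h2]
    rfl
  · exact h2

/-- a grandchild -/
def gc (q : RW n × (Fin n × Fin n)) : RW n :=
  toggle (((hd q.1).succAbove q.2.1).succAbove q.2.2) (toggle ((hd q.1).succAbove q.2.1) q.1)

lemma gc_val (w : RW n) (c : Fin n × Fin n) :
    (gc (w, c)).1 = ((hd w).succAbove c.1).succAbove c.2 :: (hd w).succAbove c.1 :: w.1 := by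
  have h1 : (toggle ((hd w).succAbove c.1) w).1 = (hd w).succAbove c.1 :: w.1 :=
    toggle_of_ne_hd (Fin.succAbove_ne _ _)
  unfold gc
  rw [toggle_of_ne_hd]
  · rw [h1]
  · have : hd (toggle ((hd w).succAbove c.1) w) = (hd w).succAbove c.1 := by
      unfold hd at h1 ⊢
      rw [h1]
      rfl
    simp only [this]
    exact Fin.succAbove_ne _ _

lemma gc_injective : Injective (gc : RW n × (Fin n × Fin n) → RW n) := by
  rintro ⟨w, c⟩ ⟨w', c'⟩ h
  have h1 := congrArg RW.val h
  rw [gc_val, gc_val] at h1
  obtain ⟨h2, h3⟩ := List.cons.inj h1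
  obtain ⟨h4, h5⟩ := List.cons.inj h3
  have hw : w = w' := RW.ext h5
  subst hw
  have hc1 : c.1 = c'.1 := Fin.succAbove_right_injective h4
  rw [hc1] at h2
  have hc2 : c.2 = c'.2 := Fin.succAbove_right_injective h2
  rw [Prod.ext hc1 hc2]

lemma gc_back (w : RW n) (c : Fin n × Fin n) : ∃ p, two p * gc (w, c) = w := by
  set a := (hd w).succAbove c.1 with ha
  set b := a.succAbove c.2 with hb
  obtain ⟨z, hz⟩ := Fin.exists_succAbove_eq (show a ≠ b from (Fin.succAbove_ne a c.2).symm)
  refine ⟨(b, z), ?_⟩
  rw [two_mul']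
  simp only [hz]
  have : gc (w, c) = toggle b (toggle a w) := rfl
  rw [this, toggle_toggle, toggle_toggle]

/-- The sum over the sphere of radius two. -/
def A (x : RW n → ZMod 2) (v : RW n) : ZMod 2 := ∑ p : Fin (n + 1) × Fin n, x (two p * v)

lemma A_eq (x : RW n → ZMod 2) (v : RW n) :
    A x v = ∑ u ∈ (tree n).neighborFinset v, ∑ w ∈ ((tree n).neighborFinset u).erase v, x w := by
  rw [neighborFinset_eq, Finset.sum_image (fun a _ b _ h => toggle_injective_letter v h)]
  unfold A
  rw [Fintype.sum_prod_type]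
  refine Finset.sum_congr rfl fun i _ => ?_
  have : ((tree n).neighborFinset (toggle i v)).erase v
      = Finset.univ.image fun c : Fin n => toggle (i.succAbove c) (toggle i v) := by
    ext w
    rw [neighborFinset_eq]
    simp only [Finset.mem_erase, Finset.mem_image, Finset.mem_univ, true_and]
    constructor
    · rintro ⟨hne, a, rfl⟩
      have hai : a ≠ i := by
        rintro rfl
        exact hne (toggle_toggle _ _)
      obtain ⟨z, hz⟩ := Fin.exists_succAbove_eq hai
      exact ⟨z, by rw [hz]⟩
    · rintro ⟨c, rfl⟩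
      refine ⟨fun h => ?_, _, rfl⟩
      have h2 : toggle (i.succAbove c) (toggle i v) = toggle i (toggle i v) := by
        rw [h, toggle_toggle]
      exact Fin.succAbove_ne i c (toggle_injective_letter _ h2)
  rw [this, Finset.sum_image]
  · refine Finset.sum_congr rfl fun c _ => ?_
    rw [two_mul']
  · intro c _ c' _ h
    exact Fin.succAbove_right_injective (toggle_injective_letter _ h)

lemma neighborFinset_apply (γ : tree n ≃g tree n) (v : RW n) :
    (tree n).neighborFinset (γ v) = ((tree n).neighborFinset v).image γ := by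
  ext w
  simp only [SimpleGraph.mem_neighborFinset, Finset.mem_image]
  constructor
  · intro h
    refine ⟨γ.symm w, ?_, by simp⟩
    rw [← γ.map_adj_iff]
    simpa using h
  · rintro ⟨u, hu, rfl⟩
    exact γ.map_adj_iff.2 hu

lemma A_equivariant (γ : tree n ≃g tree n) (x : RW n → ZMod 2) (v : RW n) :
    A (fun w => x (γ w)) v = A x (γ v) := by
  rw [A_eq, A_eq, neighborFinset_apply, Finset.sum_image (fun a _ b _ h => γ.injective h)]
  refine Finset.sum_congr rfl fun u _ => ?_
  rw [neighborFinset_apply, ← Finset.image_erase γ.injective,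
    Finset.sum_image (fun a _ b _ h => γ.injective h)]

lemma A_add (x y : RW n → ZMod 2) : A (x + y) = A x + A y := by
  funext v
  simp [A, Finset.sum_add_distrib]

lemma len_two_mul_le (p : Fin (n + 1) × Fin n) (v : RW n) : len (two p * v) ≤ len v + 2 := by
  rw [two_mul']
  have h1 := len_toggle (p.1.succAbove p.2) (toggle p.1 v)
  have h2 := len_toggle p.1 v
  omega

lemma val_of_len_eq {p : Fin (n + 1) × Fin n} {v : RW n} (h : len (two p * v) = len v + 2) :
    (two p * v).1 = p.1.succAbove p.2 :: p.1 :: v.1 := by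
  rw [two_mul'] at h ⊢
  rcases len_toggle (p.1.succAbove p.2) (toggle p.1 v) with ⟨h1, h1'⟩ | ⟨h1, h1'⟩
  · rcases len_toggle p.1 v with ⟨h2, h2'⟩ | ⟨h2, h2'⟩ <;> omega
  · rcases len_toggle p.1 v with ⟨h2, h2'⟩ | ⟨h2, h2'⟩
    · omega
    · rw [h1', h2']

/-- a grandchild of `w` is at distance two from no other vertex that is not longer than `w` -/
lemma two_mul_eq_gc {p : Fin (n + 1) × Fin n} {v w : RW n} {c : Fin n × Fin n}
    (hvw : len v ≤ len w) (h : two p * v = gc (w, c)) :
    v = w ∧ p = ((hd w).succAbove c.1, c.2) := by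
  have hlen : len (gc (w, c)) = len w + 2 := by
    unfold len
    rw [gc_val]
    simp
  have h1 := len_two_mul_le p v
  rw [h, hlen] at h1
  have h2 : len (two p * v) = len v + 2 := by rw [h, hlen]; omega
  have h3 := val_of_len_eq h2
  rw [h, gc_val] at h3
  obtain ⟨h4, h5⟩ := List.cons.inj h3
  obtain ⟨h6, h7⟩ := List.cons.inj h5
  refine ⟨(RW.ext h7).symm, Prod.ext h6.symm ?_⟩
  rw [← h6] at h4
  exact (Fin.succAbove_right_injective h4).symm

lemma two_mul_gc (w : RW n) (c : Fin n × Fin n) :
    two ((hd w).succAbove c.1, c.2) * w = gc (w, c) := by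
  rw [two_mul']
  rfl

/-- solvability on finite sets -/
lemma exists_solve (hn : 0 < n) (y : RW n → ZMod 2) (F : Finset (RW n)) :
    ∃ x, ∀ v ∈ F, A x v = y v := by
  induction F using Finset.induction_on_max_value len with
  | empty => exact ⟨0, by simp⟩
  | insert a s ha hmax ih =>
    obtain ⟨x, hx⟩ := ih
    let c : Fin n × Fin n := (⟨0, hn⟩, ⟨0, hn⟩)
    have hA1 : ∀ t : ZMod 2, A (Pi.single (gc (a, c)) t) a = t := by
      intro t
      unfold A
      rw [Finset.sum_eq_single ((hd a).succAbove c.1, c.2)]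
      · rw [two_mul_gc]; simp
      · intro p _ hp
        rw [Pi.single_apply, if_neg]
        intro h
        exact hp (two_mul_eq_gc le_rfl h).2
      · simp
    have hA0 : ∀ t : ZMod 2, ∀ v ∈ s, A (Pi.single (gc (a, c)) t) v = 0 := by
      intro t v hv
      unfold A
      refine Finset.sum_eq_zero fun p _ => ?_
      rw [Pi.single_apply, if_neg]
      intro h
      have := (two_mul_eq_gc (hmax v hv) h).1
      exact ha (this ▸ hv)
    refine ⟨x + Pi.single (gc (a, c)) (y a - A x a), fun v hv => ?_⟩
    rw [A_add, Pi.add_apply]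
    rcases Finset.mem_insert.1 hv with rfl | hv
    · rw [hA1]; ring
    · rw [hA0 _ v hv, add_zero]; exact hx v hv

end RW

end Pool.Agent.helper25_fiid
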