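import Pool.Agent.helper25_fiid.Defs
import Pool.Agent.helper25_fiid.NoSol
import Pool.Agent.helper25_fiid.TreeOp
import Pool.Agent.helper25_fiid.Limit

/-!
Assembly: the inverse limit process on the regular tree.
-/

set_option linter.unusedSectionVars false

open MeasureTheory Set Function Filter Topology
open scoped ENNReal

namespace Pool.Agent.helper25_fiid

namespace RW

variable {n : ℕ}

/-- the parity operator as a homomorphism -/
def Ahom (n : ℕ) : Cfg (RW n) →+ Cfg (RW n) := AddMonoidHom.mk' A A_add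

lemma Ahom_apply (x : Cfg (RW n)) : Ahom n x = A x := rfl

lemma continuous_Ahom : Continuous (Ahom n) := by
  refine continuous_pi fun v => ?_
  show Continuous fun x : Cfg (RW n) => ∑ p : Fin (n + 1) × Fin n, x (two p * v)
  fun_prop

lemma surjective_Ahom (hn : 0 < n) : Surjective (Ahom n) := by
  intro y
  let C : Finset (RW n) → Set (Cfg (RW n)) := fun F => {x | ∀ v ∈ F, A x v = y v}
  have hcl : ∀ F, IsClosed (C F) := by
    intro F
    have : C F = ⋂ v ∈ F, {x | A x v = y v} := by
      ext x; simp [C]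
    rw [this]
    refine isClosed_biInter fun v _ => ?_
    exact isClosed_eq ((continuous_apply v).comp continuous_Ahom) continuous_const
  have hne : (⋂ F, C F).Nonempty := by
    refine IsCompact.nonempty_iInter_of_directed_nonempty_isCompact_isClosed C ?_
      (fun F => exists_solve hn y F) (fun F => (hcl F).isCompact) hcl
    intro F F'
    refine ⟨F ∪ F', fun x hx v hv => hx v (Finset.mem_union_left _ hv),
      fun x hx v hv => hx v (Finset.mem_union_right _ hv)⟩
  obtain ⟨x, hx⟩ := hne
  refine ⟨x, ?_⟩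
  funext v
  exact mem_iInter.1 hx {v} v (Finset.mem_singleton_self v)

end RW

section Enc

/-- truncated encoding of a sequence of bits -/
noncomputable def encn (k : ℕ) (b : ℕ → ZMod 2) : ℝ :=
  ∑ m ∈ Finset.range (k + 1), if b m = 1 then (1 / 3 : ℝ) ^ m else 0

/-- encoding of a sequence of bits by a real number -/
noncomputable def enc (b : ℕ → ZMod 2) : ℝ := ∑' m : ℕ, if b m = 1 then (1 / 3 : ℝ) ^ m else 0

lemma summable_third : Summable fun m : ℕ => (1 / 3 : ℝ) ^ m :=
  summable_geometric_of_lt_one (by norm_num) (by norm_num)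

lemma term_nonneg (b : ℕ → ZMod 2) (m : ℕ) : (0 : ℝ) ≤ if b m = 1 then (1 / 3 : ℝ) ^ m else 0 := by
  split_ifs <;> positivity

lemma term_le (b : ℕ → ZMod 2) (m : ℕ) :
    (if b m = 1 then (1 / 3 : ℝ) ^ m else 0) ≤ (1 / 3 : ℝ) ^ m := by
  split_ifs
  · exact le_rfl
  · positivity

lemma summable_term (b : ℕ → ZMod 2) : Summable fun m : ℕ => if b m = 1 then (1 / 3 : ℝ) ^ m else 0 :=
  Summable.of_nonneg_of_le (term_nonneg b) (term_le b) summable_third

lemma continuous_term (m : ℕ) :
    Continuous fun b : ℕ → ZMod 2 => if b m = 1 then (1 / 3 : ℝ) ^ m else 0 :=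
  (continuous_of_discreteTopology (f := fun t : ZMod 2 => if t = 1 then (1 / 3 : ℝ) ^ m else 0)).comp
    (continuous_apply m)

lemma continuous_encn (k : ℕ) : Continuous (encn k) := by
  unfold encn
  exact continuous_finsetSum _ fun m _ => continuous_term m

lemma continuous_enc : Continuous enc := by
  unfold enc
  refine continuous_tsum continuous_term summable_third fun m b => ?_
  rw [Real.norm_eq_abs, abs_of_nonneg (term_nonneg b m)]
  exact term_le b m

lemma injective_enc : Injective enc := by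
  intro b b' h
  have h1 : ∀ b : ℕ → ZMod 2, enc b = Cardinal.cantorFunction (1 / 3) (fun m => decide (b m = 1)) := by
    intro b
    unfold enc Cardinal.cantorFunction Cardinal.cantorFunctionAux
    refine tsum_congr fun m => ?_
    by_cases hb : b m = 1 <;> simp [hb]
  rw [h1, h1] at h
  have h2 := Cardinal.cantorFunction_injective (c := 1 / 3) (by norm_num) (by norm_num) h
  funext m
  have h3 := congrFun h2 m
  simp only [decide_eq_decide] at h3
  have key : ∀ s t : ZMod 2, (s = 1 ↔ t = 1) → s = t := by decide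
  exact key _ _ h3

lemma exists_dec : ∃ dec : ℝ → (ℕ → ZMod 2), Measurable dec ∧ ∀ b, dec (enc b) = b := by
  have hemb : MeasurableEmbedding enc :=
    (continuous_enc.isClosedEmbedding injective_enc).measurableEmbedding
  obtain ⟨g, hg, hg'⟩ := hemb.exists_measurable_extend measurable_id (fun _ => ⟨0⟩)
  exact ⟨g, hg, fun b => congrFun hg' b⟩

lemma enc_sub_encn (k : ℕ) (b : ℕ → ZMod 2) : |encn k b - enc b| ≤ (1 / 3 : ℝ) ^ k := by
  have h1 := (summable_term b).sum_add_tsum_nat_add (k + 1)
  have h2 : enc b = encn k b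
      + ∑' i : ℕ, (if b (i + (k + 1)) = 1 then (1 / 3 : ℝ) ^ (i + (k + 1)) else 0) := h1.symm
  have h3 : Summable fun i : ℕ => (1 / 3 : ℝ) ^ (i + (k + 1)) :=
    (summable_nat_add_iff (k + 1)).2 summable_third
  have h4 : ∑' i : ℕ, (if b (i + (k + 1)) = 1 then (1 / 3 : ℝ) ^ (i + (k + 1)) else 0)
      ≤ ∑' i : ℕ, (1 / 3 : ℝ) ^ (i + (k + 1)) :=
    ((summable_nat_add_iff (k + 1)).2 (summable_term b)).tsum_le_tsum
      (fun i => term_le b (i + (k + 1))) h3
  have h5 : 0 ≤ ∑' i : ℕ, (if b (i + (k + 1)) = 1 then (1 / 3 : ℝ) ^ (i + (k + 1)) else 0) :=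
    tsum_nonneg fun i => term_nonneg b (i + (k + 1))
  have h6 : ∑' i : ℕ, (1 / 3 : ℝ) ^ (i + (k + 1)) ≤ (1 / 3 : ℝ) ^ k := by
    have : (fun i : ℕ => (1 / 3 : ℝ) ^ (i + (k + 1)))
        = fun i : ℕ => (1 / 3 : ℝ) ^ i * (1 / 3 : ℝ) ^ (k + 1) := by
      funext i; rw [pow_add]
    rw [this, tsum_mul_right, tsum_geometric_of_lt_one (by norm_num) (by norm_num), pow_succ]
    have : (0 : ℝ) < (1 / 3 : ℝ) ^ k := by positivity
    norm_num
    nlinarith
  rw [h2, abs_sub_comm, add_sub_cancel_left, abs_of_nonneg h5]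
  exact h4.trans h6

lemma enc_nonneg (b : ℕ → ZMod 2) : 0 ≤ enc b := tsum_nonneg (term_nonneg b)

lemma encn_nonneg (k : ℕ) (b : ℕ → ZMod 2) : 0 ≤ encn k b :=
  Finset.sum_nonneg fun m _ => term_nonneg b m

lemma enc_le (b : ℕ → ZMod 2) : enc b ≤ 2 := by
  calc enc b ≤ ∑' m : ℕ, (1 / 3 : ℝ) ^ m := (summable_term b).tsum_le_tsum (term_le b) summable_third
    _ ≤ 2 := by rw [tsum_geometric_of_lt_one (by norm_num) (by norm_num)]; norm_num

lemma encn_le (k : ℕ) (b : ℕ → ZMod 2) : encn k b ≤ 2 := by
  refine le_trans ?_ (enc_le b)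
  exact (summable_term b).sum_le_tsum _ fun m _ => term_nonneg b m

end Enc

section Process

variable {n : ℕ}

/-- the limit measure on the tree -/
noncomputable abbrev P (n : ℕ) : Measure (ℕ → Cfg (RW n)) :=
  limP (RW.Ahom n) RW.continuous_Ahom

/-- site-wise encoding -/
noncomputable def Enc (x : ℕ → Cfg (RW n)) : RW n → ℝ := fun v => enc fun m => x m v

/-- site-wise truncated encoding -/
noncomputable def Encn (k : ℕ) (x : ℕ → Cfg (RW n)) : RW n → ℝ := fun v => encn k fun m => x m v

/-- the pair -/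
noncomputable def EncP (k : ℕ) (x : ℕ → Cfg (RW n)) : RW n → ℝ × ℝ :=
  fun v => (Encn k x v, Enc x v)

lemma measurable_site (v : RW n) : Measurable fun x : ℕ → Cfg (RW n) => fun m => x m v := by
  fun_prop

lemma measurable_Enc : Measurable (Enc : (ℕ → Cfg (RW n)) → (RW n → ℝ)) :=
  measurable_pi_lambda _ fun v => continuous_enc.measurable.comp (measurable_site v)

lemma measurable_Encn (k : ℕ) : Measurable (Encn k : (ℕ → Cfg (RW n)) → (RW n → ℝ)) :=
  measurable_pi_lambda _ fun v => (continuous_encn k).measurable.comp (measurable_site v)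

lemma measurable_EncP (k : ℕ) : Measurable (EncP k : (ℕ → Cfg (RW n)) → (RW n → ℝ × ℝ)) :=
  measurable_pi_lambda _ fun v => ((measurable_pi_apply v).comp (measurable_Encn k)).prodMk
    ((measurable_pi_apply v).comp measurable_Enc)

/-- the limit process -/
noncomputable def YY (n : ℕ) : Measure (RW n → ℝ) := (P n).map Enc

/-- the approximating processes -/
noncomputable def XX (n k : ℕ) : Measure (RW n → ℝ) := (P n).map (Encn k)

/-- the coupling -/
noncomputable def PiP (n k : ℕ) : Measure (RW n → ℝ × ℝ) := (P n).map (EncP k)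

lemma measurable_act {G : SimpleGraph (RW n)} {α : Type} [MeasurableSpace α] (γ : G ≃g G) :
    Measurable (act γ : (RW n → α) → (RW n → α)) :=
  measurable_pi_lambda _ fun _ => measurable_pi_apply _

lemma P_relabel (γ : RW.tree n ≃g RW.tree n) : (P n).map (relabel γ.toEquiv) = P n :=
  limP_relabel RW.continuous_Ahom fun x v => RW.A_equivariant γ x v

lemma invariant_map {α : Type} [MeasurableSpace α] {F : (ℕ → Cfg (RW n)) → (RW n → α)}
    (hF : Measurable F)
    (heq : ∀ (γ : RW.tree n ≃g RW.tree n) x, act γ (F x) = F (relabel γ.symm.toEquiv x)) :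
    IsInvariantLaw (RW.tree n) ((P n).map F) where
  isProbabilityMeasure := Measure.isProbabilityMeasure_map hF.aemeasurable
  invariant := by
    intro γ
    rw [Measure.map_map (measurable_act γ) hF]
    have : act γ ∘ F = F ∘ relabel γ.symm.toEquiv := by
      funext x; exact heq γ x
    rw [this, ← Measure.map_map hF (measurable_relabel _), P_relabel]

lemma invariant_YY : IsInvariantLaw (RW.tree n) (YY n) :=
  invariant_map measurable_Enc fun _ _ => rfl

lemma invariant_PiP (k : ℕ) : IsInvariantLaw (RW.tree n) (PiP n k) :=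
  invariant_map (measurable_EncP k) fun _ _ => rfl

lemma secondMoment_YY : FiniteSecondMoment (YY n) := by
  intro v
  unfold YY
  rw [lintegral_map (by fun_prop) measurable_Enc]
  calc ∫⁻ x, ENNReal.ofReal ((Enc x v) ^ 2) ∂(P n) ≤ ∫⁻ _x, ENNReal.ofReal 4 ∂(P n) := by
        refine lintegral_mono fun x => ENNReal.ofReal_le_ofReal ?_
        have h1 := enc_nonneg fun m => x m v
        have h2 := enc_le fun m => x m v
        show (enc fun m => x m v) ^ 2 ≤ 4
        nlinarith
    _ < ∞ := by simp

lemma secondMoment_XX (k : ℕ) : FiniteSecondMoment (XX n k) := by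
  intro v
  unfold XX
  rw [lintegral_map (by fun_prop) (measurable_Encn k)]
  calc ∫⁻ x, ENNReal.ofReal ((Encn k x v) ^ 2) ∂(P n) ≤ ∫⁻ _x, ENNReal.ofReal 4 ∂(P n) := by
        refine lintegral_mono fun x => ENNReal.ofReal_le_ofReal ?_
        have h1 := encn_nonneg k fun m => x m v
        have h2 := encn_le k fun m => x m v
        show (encn k fun m => x m v) ^ 2 ≤ 4
        nlinarith
    _ < ∞ := by simp

lemma dbar2_le (o : RW n) (k : ℕ) :
    dbar2 (RW.tree n) o (XX n k) (YY n) ≤ ENNReal.ofReal ((1 / 3 : ℝ) ^ k) := by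
  have hc : IsInvariantCoupling (RW.tree n) (XX n k) (YY n) (PiP n k) := by
    refine ⟨invariant_PiP k, ?_, ?_⟩
    · unfold PiP XX
      rw [Measure.map_map (by fun_prop) (measurable_EncP k)]
      rfl
    · unfold PiP YY
      rw [Measure.map_map (by fun_prop) (measurable_EncP k)]
      rfl
  have hle : (⨅ (π : Measure (RW n → ℝ × ℝ)) (_ : IsInvariantCoupling (RW.tree n) (XX n k) (YY n) π),
      ∫⁻ y, ENNReal.ofReal (((y o).1 - (y o).2) ^ 2) ∂π)
      ≤ ENNReal.ofReal (((1 / 3 : ℝ) ^ k) ^ 2) := by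
    refine (iInf₂_le (PiP n k) hc).trans ?_
    unfold PiP
    rw [lintegral_map (by fun_prop) (measurable_EncP k)]
    calc ∫⁻ x, ENNReal.ofReal (((EncP k x o).1 - (EncP k x o).2) ^ 2) ∂(P n)
        ≤ ∫⁻ _x, ENNReal.ofReal (((1 / 3 : ℝ) ^ k) ^ 2) ∂(P n) := by
          refine lintegral_mono fun x => ENNReal.ofReal_le_ofReal ?_
          have := enc_sub_encn k fun m => x m o
          have hd : (EncP k x o).1 - (EncP k x o).2
              = (encn k fun m => x m o) - enc fun m => x m o := rfl
          rw [hd]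
          exact sq_le_sq' (by linarith [neg_le_of_abs_le this]) (le_of_abs_le this)
      _ = ENNReal.ofReal (((1 / 3 : ℝ) ^ k) ^ 2) := by simp
  unfold dbar2
  calc (⨅ (π : Measure (RW n → ℝ × ℝ)) (_ : IsInvariantCoupling (RW.tree n) (XX n k) (YY n) π),
      ∫⁻ y, ENNReal.ofReal (((y o).1 - (y o).2) ^ 2) ∂π) ^ (1 / 2 : ℝ)
      ≤ (ENNReal.ofReal (((1 / 3 : ℝ) ^ k) ^ 2)) ^ (1 / 2 : ℝ) :=
        ENNReal.rpow_le_rpow hle (by norm_num)
    _ = ENNReal.ofReal ((1 / 3 : ℝ) ^ k) := by
        rw [ENNReal.ofReal_rpow_of_nonneg (by positivity) (by norm_num), ← Real.sqrt_eq_rpow,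
          Real.sqrt_sq (by positivity)]

lemma tendsto_dbar2 (o : RW n) :
    Tendsto (fun k => dbar2 (RW.tree n) o (XX n k) (YY n)) atTop (𝓝 0) := by
  have h : Tendsto (fun k : ℕ => ENNReal.ofReal ((1 / 3 : ℝ) ^ k)) atTop (𝓝 0) := by
    have := ENNReal.tendsto_ofReal (tendsto_pow_atTop_nhds_zero_of_lt_one
      (show (0 : ℝ) ≤ 1 / 3 by norm_num) (by norm_num))
    simpa using this
  exact tendsto_of_tendsto_of_tendsto_of_le_of_le tendsto_const_nhds h (fun _ => bot_le)
    (fun k => dbar2_le o k)

lemma iterate_A_equivariant (γ : RW.tree n ≃g RW.tree n) (k : ℕ) (x : Cfg (RW n)) (v : RW n) :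
    ((RW.Ahom n)^[k] fun w => x (γ w)) v = ((RW.Ahom n)^[k] x) (γ v) := by
  induction k generalizing x v with
  | zero => rfl
  | succ k ih =>
    rw [iterate_succ_apply, iterate_succ_apply]
    have : RW.Ahom n (fun w => x (γ w)) = fun w => (RW.Ahom n x) (γ w) := by
      funext w
      exact RW.A_equivariant γ x w
    rw [this]
    exact ih _ _

/-- the block factor -/
noncomputable def Psi (k : ℕ) (y : Cfg (RW n)) : RW n → ℝ :=
  fun v => encn k fun m => ((RW.Ahom n)^[k - m] y) v

lemma measurable_Psi (k : ℕ) : Measurable (Psi k : Cfg (RW n) → (RW n → ℝ)) := by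
  refine measurable_pi_lambda _ fun v => (continuous_encn k).measurable.comp ?_
  refine measurable_pi_lambda _ fun m => (measurable_pi_apply v).comp ?_
  exact ((RW.continuous_Ahom (n := n)).iterate (k - m)).measurable

/-- site-wise bits -/
noncomputable def bits (ω : RW n → unitInterval) : Cfg (RW n) := fun v => bit (ω v)

lemma measurable_bits : Measurable (bits : (RW n → unitInterval) → Cfg (RW n)) :=
  measurable_pi_lambda _ fun v => measurable_bit.comp (measurable_pi_apply v)

lemma map_bits : (iidUniform (RW n)).map bits = iid (RW n) unifZ :=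
  Measure.infinitePi_map_pi (fun _ : RW n => (volume : Measure unitInterval))
    (f := fun _ => bit) (fun _ => measurable_bit)

lemma limG_iterate {x : ℕ → Cfg (RW n)} (hx : x ∈ limG (RW.Ahom n)) (m j : ℕ) :
    x m = (RW.Ahom n)^[j] (x (m + j)) := by
  induction j with
  | zero => rfl
  | succ j ih => rw [iterate_succ_apply, ← add_assoc, hx (m + j), ← ih]

lemma isFIID_XX (hn : 0 < n) (k : ℕ) : IsFIID (RW.tree n) (XX n k) := by
  refine ⟨Psi k ∘ bits, (measurable_Psi k).comp measurable_bits, ?_, ?_⟩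
  · intro γ ω
    funext v
    show encn k (fun m => ((RW.Ahom n)^[k - m] (bits (act γ ω))) v)
      = encn k (fun m => ((RW.Ahom n)^[k - m] (bits ω)) (γ.symm v))
    congr 1
    funext m
    exact iterate_A_equivariant γ.symm (k - m) (bits ω) v
  · rw [← Measure.map_map (measurable_Psi k) measurable_bits, map_bits,
      ← limP_coord RW.continuous_Ahom (RW.surjective_Ahom hn) k,
      Measure.map_map (measurable_Psi k) (measurable_pi_apply k)]
    unfold XX
    refine Measure.map_congr ?_
    filter_upwards [limP_mem (RW.continuous_Ahom (n := n))] with x hx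
    funext v
    show encn k (fun m => ((RW.Ahom n)^[k - m] (x k)) v) = encn k fun m => x m v
    unfold encn
    refine Finset.sum_congr rfl fun m hm => ?_
    have hmk : m ≤ k := by
      have := Finset.mem_range.1 hm
      omega
    have h1 := limG_iterate hx m (k - m)
    rw [Nat.add_sub_cancel' hmk] at h1
    have h2 : ((RW.Ahom n)^[k - m] (x k)) v = x m v := by rw [← h1]
    simp only [h2]

lemma act_rmul_inv {α : Type} (g : RW n) (x : RW n → α) : act (RW.rmul g⁻¹) x = shift g x := by
  funext v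
  show x ((RW.rmul g⁻¹).symm v) = x (v * g)
  rw [RW.rmul_symm_apply, inv_inv]

lemma eq_ite_of_zmod2 (t : ZMod 2) : t = if t = 1 then 1 else 0 := by
  revert t; decide

theorem not_isFIIDae_YY (hn : 2 ≤ n) : ¬ IsFIIDae (RW.tree n) (YY n) := by
  classical
  rintro ⟨Φ, hΦ, heq, hlaw⟩
  obtain ⟨dec, hdec, hde⟩ := exists_dec
  have hn0 : 0 < n := by omega
  let S : ℕ → Set (RW n → unitInterval) := fun m => {ω | dec (Φ ω 1) m = 1}
  have hmeas1 : ∀ (v : RW n) (m : ℕ), Measurable fun y : RW n → ℝ => dec (y v) m := fun v m =>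
    (measurable_pi_apply m).comp (hdec.comp (measurable_pi_apply v))
  have hS : ∀ m, MeasurableSet (S m) := fun m =>
    ((hmeas1 1 m).comp hΦ) (measurableSet_singleton 1)
  have hT : ∀ m, MeasurableSet {y : RW n → ℝ | dec (y 1) m = 1} := fun m =>
    (hmeas1 1 m) (measurableSet_singleton 1)
  -- every coordinate is a fair bit
  have hhalf : ∀ m, (iid (RW n) (volume : Measure unitInterval)).real (S m) = 1 / 2 := by
    intro m
    have h1 : (iidUniform (RW n)) (S m) = YY n {y | dec (y 1) m = 1} := by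
      rw [← hlaw, Measure.map_apply hΦ (hT m)]
      rfl
    have h2 : YY n {y | dec (y 1) m = 1} = unifZ {1} := by
      unfold YY
      rw [Measure.map_apply measurable_Enc (hT m)]
      have : Enc ⁻¹' {y : RW n → ℝ | dec (y 1) m = 1}
          = (fun x : ℕ → Cfg (RW n) => x m) ⁻¹' ((fun z : Cfg (RW n) => z 1) ⁻¹' {1}) := by
        ext x
        simp only [mem_preimage, mem_ofPred_eq, mem_singleton_iff, Enc, hde]
      rw [this, ← Measure.map_apply (measurable_pi_apply m)
        ((measurable_pi_apply 1) (measurableSet_singleton 1)),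
        limP_coord RW.continuous_Ahom (RW.surjective_Ahom hn0) m,
        ← Measure.map_apply (measurable_pi_apply 1) (measurableSet_singleton 1),
        Measure.infinitePi_map_eval]
    have h3 : (iid (RW n) (volume : Measure unitInterval)) (S m) = ENNReal.ofReal (1 / 2) := by
      rw [← unifZ_one, ← h2, ← h1]
      rfl
    rw [Measure.real, h3, ENNReal.toReal_ofReal (by norm_num)]
  -- the parity relation
  have hrelY : ∀ᵐ y ∂(YY n), ∀ m, dec (y 1) m = ∑ p, dec (y (RW.two p)) (m + 1) := by
    unfold YY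
    rw [ae_map_iff measurable_Enc.aemeasurable]
    · filter_upwards [limP_mem (RW.continuous_Ahom (n := n))] with x hx m
      have h1 := congrFun (hx m) 1
      simp only [Enc, hde]
      rw [← h1]
      show ∑ p, x (m + 1) (RW.two p * 1) = _
      simp
    · have : {y : RW n → ℝ | ∀ m, dec (y 1) m = ∑ p, dec (y (RW.two p)) (m + 1)}
          = ⋂ m, {y | dec (y 1) m = ∑ p, dec (y (RW.two p)) (m + 1)} := by
        ext y; simp
      rw [this]
      exact MeasurableSet.iInter fun m => measurableSet_eq_fun (hmeas1 1 m)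
        (Finset.measurable_sum _ fun p _ => hmeas1 _ _)
  have hrelω : ∀ᵐ ω ∂(iidUniform (RW n)), ∀ m,
      dec (Φ ω 1) m = ∑ p, dec (Φ ω (RW.two p)) (m + 1) := by
    rw [← hlaw] at hrelY
    exact ae_of_ae_map hΦ.aemeasurable hrelY
  have hshift : ∀ᵐ ω ∂(iidUniform (RW n)), ∀ p : Fin (n + 1) × Fin n,
      Φ (shift (RW.two p) ω) 1 = Φ ω (RW.two p) := by
    rw [ae_all_iff]
    intro p
    filter_upwards [heq (RW.rmul (RW.two p)⁻¹)] with ω hω
    rw [act_rmul_inv, act_rmul_inv] at hω
    rw [hω]
    simp [shift]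
  refine no_solution (Γ := RW n) (ν := (volume : Measure unitInterval)) RW.two RW.gc
    RW.gc_injective RW.gc_back ?_ S hS hhalf ?_
  · simp only [Fintype.card_prod, Fintype.card_fin]
    nlinarith
  · intro m
    have : ∀ᵐ ω ∂(iidUniform (RW n)), ParityRel RW.two (S m) (S (m + 1)) ω := by
      filter_upwards [hrelω, hshift] with ω hω hsh
      unfold ParityRel
      have h1 : ω ∈ S m ↔ dec (Φ ω 1) m = 1 := Iff.rfl
      have h2 : ∀ p, shift (RW.two p) ω ∈ S (m + 1) ↔ dec (Φ ω (RW.two p)) (m + 1) = 1 := by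
        intro p
        rw [← hsh p]
        exact Iff.rfl
      rw [h1, hω m]
      simp only [h2]
      have h3 : ∑ p, dec (Φ ω (RW.two p)) (m + 1)
          = ((Finset.univ.filter fun p => dec (Φ ω (RW.two p)) (m + 1) = 1).card : ZMod 2) := by
        rw [← Finset.sum_boole]
        exact Finset.sum_congr rfl fun p _ => eq_ite_of_zmod2 _
      rw [h3]
      exact ZMod.natCast_eq_one_iff_odd
    exact this

end Process

end Pool.Agent.helper25_fiid
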