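import Pool.Agent.helper25_fiid.Basic

/-!
Mutual information as a Jensen gap, data processing, and its form for independent seeds.
-/

set_option linter.unusedSectionVars false

open MeasureTheory Set Function
open scoped ENNReal

namespace Pool.Agent.helper25_fiid

section MI

variable {Ω : Type*} [MeasurableSpace Ω] {P : Measure Ω} [IsProbabilityMeasure P]
variable {α β : Type*} [Fintype α] [Fintype β]

/-- Jensen gap of the entropy -/
noncomputable def MI (P : Measure Ω) (p : Ω → α → ℝ) : ℝ :=
  ent (fun z => ∫ c, p c z ∂P) - ∫ c, ent (p c) ∂P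

open Classical in
/-- push a vector along `f` -/
noncomputable def pushv (f : α → β) (q : α → ℝ) (y : β) : ℝ :=
  ∑ z ∈ Finset.univ.filter (fun z => f z = y), q z

lemma integrable_of_bdd {g : Ω → ℝ} (hg : Measurable g) (h0 : ∀ c, 0 ≤ g c) (h1 : ∀ c, g c ≤ 1) :
    Integrable g P := by
  refine Integrable.of_bound hg.aestronglyMeasurable 1 (ae_of_all _ fun c => ?_)
  rw [Real.norm_eq_abs, abs_of_nonneg (h0 c)]
  exact h1 c

lemma integrable_mul_log {g : Ω → ℝ} (hg : Measurable g) (h0 : ∀ c, 0 ≤ g c)
    (h1 : ∀ c, g c ≤ 1) : Integrable (fun c => g c * Real.log (g c)) P := by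
  have : Integrable (fun c => Real.negMulLog (g c)) P :=
    integrable_of_bdd (Real.continuous_negMulLog.measurable.comp hg)
      (fun c => Real.negMulLog_nonneg (h0 c) (h1 c)) (fun c => negMulLog_le_one (h0 c))
  refine (this.neg).congr (ae_of_all _ fun c => ?_)
  simp [Real.negMulLog]

lemma MI_eq {p : Ω → α → ℝ} (hp : ∀ z, Measurable fun c => p c z)
    (h0 : ∀ c z, 0 ≤ p c z) (h1 : ∀ c z, p c z ≤ 1) :
    MI P p = ∫ c, ∑ z, p c z * (Real.log (p c z) - Real.log (∫ c', p c' z ∂P)) ∂P := by
  have hi : ∀ z, Integrable (fun c => p c z) P := fun z =>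
    integrable_of_bdd (hp z) (fun c => h0 c z) (fun c => h1 c z)
  have hl : ∀ z, Integrable (fun c => p c z * Real.log (p c z)) P := fun z =>
    integrable_mul_log (hp z) (fun c => h0 c z) (fun c => h1 c z)
  unfold MI ent
  rw [integral_finsetSum, integral_finsetSum, ← Finset.sum_sub_distrib]
  · refine Finset.sum_congr rfl fun z _ => ?_
    have : (fun c => p c z * (Real.log (p c z) - Real.log (∫ c', p c' z ∂P)))
        = fun c => p c z * Real.log (p c z) - p c z * Real.log (∫ c', p c' z ∂P) := by
      funext c; ring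
    rw [this, integral_sub (hl z) ((hi z).mul_const _), integral_mul_const]
    have h2 : (fun c => Real.negMulLog (p c z)) = fun c => -(p c z * Real.log (p c z)) := by
      funext c; simp [Real.negMulLog]
    rw [h2, integral_neg]
    simp only [Real.negMulLog]
    ring
  · intro z _
    have : (fun c => p c z * (Real.log (p c z) - Real.log (∫ c', p c' z ∂P)))
        = fun c => p c z * Real.log (p c z) - p c z * Real.log (∫ c', p c' z ∂P) := by
      funext c; ring
    rw [this]
    exact (hl z).sub ((hi z).mul_const _)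
  · intro z _
    exact integrable_of_bdd (Real.continuous_negMulLog.measurable.comp (hp z))
      (fun c => Real.negMulLog_nonneg (h0 c z) (h1 c z)) (fun c => negMulLog_le_one (h0 c z))

lemma pushv_nonneg {f : α → β} {q : α → ℝ} (h0 : ∀ z, 0 ≤ q z) (y : β) : 0 ≤ pushv f q y :=
  Finset.sum_nonneg fun z _ => h0 z

lemma pushv_le_one {f : α → β} {q : α → ℝ} (h0 : ∀ z, 0 ≤ q z) (h1 : ∑ z, q z ≤ 1) (y : β) :
    pushv f q y ≤ 1 :=
  (Finset.sum_le_sum_of_subset_of_nonneg (Finset.subset_univ _) fun z _ _ => h0 z).trans h1

lemma measurable_pushv {f : α → β} {p : Ω → α → ℝ} (hp : ∀ z, Measurable fun c => p c z) (y : β) :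
    Measurable fun c => pushv f (p c) y :=
  Finset.measurable_sum _ fun z _ => hp z

lemma integrable_mul_log_sub {q : Ω → α → ℝ} (hq : ∀ z, Measurable fun c => q c z)
    (hq0 : ∀ c z, 0 ≤ q c z) (hq1 : ∀ c z, q c z ≤ 1) (r : α → ℝ) :
    Integrable (fun c => ∑ z, q c z * (Real.log (q c z) - r z)) P := by
  refine integrable_finsetSum _ fun z _ => ?_
  have : (fun c => q c z * (Real.log (q c z) - r z))
      = fun c => q c z * Real.log (q c z) - q c z * r z := by
    funext c; ring
  rw [this]
  exact (integrable_mul_log (hq z) (fun c => hq0 c z) (fun c => hq1 c z)).sub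
    ((integrable_of_bdd (hq z) (fun c => hq0 c z) (fun c => hq1 c z)).mul_const _)

/-- Data processing. -/
theorem MI_mono (f : α → β) {p : Ω → α → ℝ} (hp : ∀ z, Measurable fun c => p c z)
    (h0 : ∀ c z, 0 ≤ p c z) (h1 : ∀ c, ∑ z, p c z ≤ 1) :
    MI P (fun c => pushv f (p c)) ≤ MI P p := by
  classical
  have h1' : ∀ c z, p c z ≤ 1 := fun c z =>
    (Finset.single_le_sum (fun z _ => h0 c z) (Finset.mem_univ z)).trans (h1 c)
  have hi : ∀ z, Integrable (fun c => p c z) P := fun z =>
    integrable_of_bdd (hp z) (fun c => h0 c z) (fun c => h1' c z)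
  have hl : ∀ z, Integrable (fun c => p c z * Real.log (p c z)) P := fun z =>
    integrable_mul_log (hp z) (fun c => h0 c z) (fun c => h1' c z)
  have hpush : ∀ y, ∫ c, pushv f (p c) y ∂P = pushv f (fun z => ∫ c, p c z ∂P) y := fun y => by
    unfold pushv
    rw [integral_finsetSum _ fun z _ => hi z]
  rw [MI_eq hp h0 h1', MI_eq (fun y => measurable_pushv hp y) (fun c y => pushv_nonneg (h0 c) y)
    (fun c y => pushv_le_one (h0 c) (h1 c) y)]
  refine integral_mono_ae
    (integrable_mul_log_sub (q := fun c => pushv f (p c)) (fun y => measurable_pushv hp y)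
      (fun c y => pushv_nonneg (h0 c) y) (fun c y => pushv_le_one (h0 c) (h1 c) y)
      (fun y => Real.log (∫ c', pushv f (p c') y ∂P)))
    (integrable_mul_log_sub hp h0 h1' (fun z => Real.log (∫ c', p c' z ∂P))) ?_
  have hae : ∀ᵐ c ∂P, ∀ z, (∫ c', p c' z ∂P) = 0 → p c z = 0 := by
    rw [ae_all_iff]
    intro z
    by_cases hz : (∫ c', p c' z ∂P) = 0
    · have := (integral_eq_zero_iff_of_nonneg (fun c => h0 c z) (hi z)).1 hz
      filter_upwards [this] with c hc _
      simpa using hc
    · exact ae_of_all _ fun c h => absurd h hz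
  filter_upwards [hae] with c hc
  simp only [hpush]
  calc ∑ y, pushv f (p c) y *
        (Real.log (pushv f (p c) y) - Real.log (pushv f (fun z => ∫ c', p c' z ∂P) y))
      ≤ ∑ y, ∑ z ∈ Finset.univ.filter (fun z => f z = y),
          p c z * (Real.log (p c z) - Real.log (∫ c', p c' z ∂P)) := by
        refine Finset.sum_le_sum fun y _ => ?_
        have := log_sum_ineq (Finset.univ.filter (fun z => f z = y)) (fun z => p c z)
          (fun z => ∫ c', p c' z ∂P) (fun z _ => h0 c z)
          (fun z _ => integral_nonneg fun c' => h0 c' z) (fun z _ => hc z)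
        unfold pushv
        convert this
    _ = ∑ z, p c z * (Real.log (p c z) - Real.log (∫ c', p c' z ∂P)) :=
        Finset.sum_fiberwise _ _ _

end MI

section Seeds

variable {Γ E : Type*} [MeasurableSpace E] {ν : Measure E} [IsProbabilityMeasure ν]
variable {α β : Type*} [Fintype α] [Fintype β] [MeasurableSpace α] [MeasurableSingletonClass α]
  [MeasurableSpace β] [MeasurableSingletonClass β]

lemma cp_comp (f : α → β) {W : (Γ → E) → α} (hW : Measurable W) (A : Set Γ) (a : Γ → E) :
    cp ν (f ∘ W) A a = pushv f (cp ν W A a) := by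
  classical
  funext y
  unfold cp pushv
  have hX : Measurable fun b : Γ → E => W (splice A a b) := hW.comp (measurable_splice_right A a)
  have := sum_measureReal_preimage_singleton (μ := iid Γ ν)
    (Finset.univ.filter (fun z => f z = y)) (f := fun b : Γ → E => W (splice A a b))
    (fun z _ => hX (measurableSet_singleton z))
  have h2 : {b | (f ∘ W) (splice A a b) = y} =
      (fun b : Γ → E => W (splice A a b)) ⁻¹'
        ((Finset.univ.filter (fun z => f z = y) : Finset α) : Set α) := by
    ext b; simp
  rw [h2, ← this]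
  rfl

lemma sum_cp {W : (Γ → E) → α} (hW : Measurable W) (A : Set Γ) (a : Γ → E) :
    ∑ z, cp ν W A a z = 1 := by
  have hX : Measurable fun b : Γ → E => W (splice A a b) := hW.comp (measurable_splice_right A a)
  have := sum_measureReal_preimage_singleton (μ := iid Γ ν)
    Finset.univ (f := fun b : Γ → E => W (splice A a b))
    (fun z _ => hX (measurableSet_singleton z))
  simp only [Finset.coe_univ, preimage_univ, probReal_univ] at this
  exact this

lemma integrable_ent_cp {W : (Γ → E) → α} (hW : Measurable W) (A : Set Γ) :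
    Integrable (fun a => ent (cp ν W A a)) (iid Γ ν) :=
  integrable_ent (fun z => measurable_cp hW A z) (fun a z => cp_nonneg W A a z)
    (fun a z => cp_le_one W A a z)

lemma integrable_ent_cp_splice {W : (Γ → E) → α} (hW : Measurable W) (A B : Set Γ) :
    Integrable (fun q : (Γ → E) × (Γ → E) => ent (cp ν W A (splice B q.1 q.2)))
      ((iid Γ ν).prod (iid Γ ν)) :=
  integrable_ent (fun z => (measurable_cp hW A z).comp (measurable_splice B))
    (fun _ z => cp_nonneg W A _ z) (fun _ z => cp_le_one W A _ z)

/-- the information that the seed `u` gives about `W`, the seeds in `A` being known -/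
lemma gE_sub_insert {W : (Γ → E) → α} (hW : Measurable W) {A : Set Γ} {u : Γ} (hu : u ∉ A) :
    gE ν W A - gE ν W (insert u A)
      = ∫ a, MI (iid Γ ν) (fun c => cp ν W (insert u A) (splice {u} c a)) ∂(iid Γ ν) := by
  have h1 : gE ν W (insert u A)
      = ∫ a, ∫ c, ent (cp ν W (insert u A) (splice {u} c a)) ∂(iid Γ ν) ∂(iid Γ ν) := by
    unfold gE
    conv_lhs => rw [← map_splice ν {u}]
    rw [integral_map (measurable_splice {u}).aemeasurable
      (measurable_ent fun z => measurable_cp hW _ z).aestronglyMeasurable]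
    exact integral_prod_symm _ (integrable_ent_cp_splice hW _ _)
  have h2 : gE ν W A
      = ∫ a, ent (fun z => ∫ c, cp ν W (insert u A) (splice {u} c a) z ∂(iid Γ ν)) ∂(iid Γ ν) := by
    unfold gE
    refine integral_congr_ae (ae_of_all _ fun a => ?_)
    simp only
    congr 1
    funext z
    exact cp_eq_integral hW hu a z
  rw [h1, h2, ← integral_sub]
  · rfl
  · have := integrable_ent_cp (ν := ν) hW A
    refine this.congr (ae_of_all _ fun a => ?_)
    simp only
    congr 1
    funext z
    exact cp_eq_integral hW hu a z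
  · exact (integrable_ent_cp_splice hW (insert u A) {u}).integral_prod_right

lemma integrable_MI {W : (Γ → E) → α} (hW : Measurable W) {A : Set Γ} {u : Γ} (hu : u ∉ A) :
    Integrable (fun a => MI (iid Γ ν) (fun c => cp ν W (insert u A) (splice {u} c a)))
      (iid Γ ν) := by
  unfold MI
  refine Integrable.sub ?_ ?_
  · have := integrable_ent_cp (ν := ν) hW A
    refine this.congr (ae_of_all _ fun a => ?_)
    simp only
    congr 1
    funext z
    exact cp_eq_integral hW hu a z
  · exact (integrable_ent_cp_splice hW (insert u A) {u}).integral_prod_right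

theorem gE_data_processing (f : α → β) (hf : Measurable f) {W : (Γ → E) → α} (hW : Measurable W)
    (A : Set Γ) (u : Γ) :
    gE ν (f ∘ W) A - gE ν (f ∘ W) (insert u A) ≤ gE ν W A - gE ν W (insert u A) := by
  by_cases hu : u ∈ A
  · rw [insert_eq_of_mem hu]; simp
  · rw [gE_sub_insert hW hu, gE_sub_insert (hf.comp hW) hu]
    refine integral_mono (integrable_MI (hf.comp hW) hu) (integrable_MI hW hu) fun a => ?_
    have : (fun c => cp ν (f ∘ W) (insert u A) (splice {u} c a))
        = fun c => pushv f (cp ν W (insert u A) (splice {u} c a)) := by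
      funext c
      exact cp_comp f hW _ _
    simp only [this]
    refine MI_mono f (fun z => ?_) (fun c z => cp_nonneg W _ _ z) (fun c => (sum_cp hW _ _).le)
    exact (measurable_cp hW _ z).comp ((measurable_splice {u}).comp measurable_prodMk_right)

lemma gE_const (A : Set Γ) (y : β) : gE ν (fun _ : Γ → E => y) A = 0 := by
  classical
  unfold gE
  have : ∀ a, ent (cp ν (fun _ : Γ → E => y) A a) = 0 := by
    intro a
    unfold ent
    refine Finset.sum_eq_zero fun z _ => ?_
    unfold cp
    by_cases h : y = z
    · simp [h]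
    · simp [h]
  simp [this]

theorem gE_sub_nonneg {W : (Γ → E) → α} (hW : Measurable W) (A : Set Γ) (u : Γ) :
    0 ≤ gE ν W A - gE ν W (insert u A) := by
  have := gE_data_processing (ν := ν) (fun _ : α => ()) measurable_const hW A u
  have h2 : (fun _ : α => ()) ∘ W = fun _ => () := rfl
  rw [h2, gE_const, gE_const] at this
  linarith

end Seeds

end Pool.Agent.helper25_fiid
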