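import Pool.Agent.helper25_fiid.Sparse

/-!
Noise: interpolating between two independent configurations.
-/

set_option linter.unusedSectionVars false

open MeasureTheory Set Function Filter Topology
open scoped ENNReal

namespace Pool.Agent.helper25_fiid

section Unzip

variable {Γ E : Type*} [MeasurableSpace E] (ν : Measure E) [IsProbabilityMeasure ν]

lemma measurable_unzip : Measurable (fun z : Γ → E × E =>
    ((fun v => (z v).1, fun v => (z v).2) : (Γ → E) × (Γ → E))) := by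
  fun_prop

lemma map_unzip : (iid Γ (ν.prod ν)).map (fun z : Γ → E × E =>
    ((fun v => (z v).1, fun v => (z v).2) : (Γ → E) × (Γ → E)))
      = (iid Γ ν).prod (iid Γ ν) := by
  classical
  symm
  have hpi : IsPiSystem (squareCylinders fun _ : Γ => {s : Set E | MeasurableSet s}) :=
    isPiSystem_squareCylinders (fun _ => MeasurableSpace.isPiSystem_measurableSet)
      (fun _ => MeasurableSet.univ)
  have huniv : (univ : Set (Γ → E)) ∈ squareCylinders fun _ : Γ => {s : Set E | MeasurableSet s} :=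
    ⟨∅, fun _ => univ, by simp, by simp⟩
  have hspan : (iid Γ ν).FiniteSpanningSetsIn
      (squareCylinders fun _ : Γ => {s : Set E | MeasurableSet s}) :=
    { set := fun _ => univ
      set_mem := fun _ => huniv
      finite := fun _ => measure_lt_top _ _
      spanning := iUnion_const _ }
  refine Measure.prod_eq_generateFrom generateFrom_squareCylinders generateFrom_squareCylinders
    hpi hpi hspan hspan ?_
  rintro _ ⟨s, t, ht, rfl⟩ _ ⟨s', t', ht', rfl⟩
  simp only [mem_univ_pi, mem_ofPred_eq] at ht ht'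
  rw [Measure.map_apply measurable_unzip
    ((MeasurableSet.pi s.countable_toSet fun i _ => ht i).prod
      (MeasurableSet.pi s'.countable_toSet fun i _ => ht' i))]
  have hset : (fun z : Γ → E × E =>
      ((fun v => (z v).1, fun v => (z v).2) : (Γ → E) × (Γ → E))) ⁻¹'
        (((s : Set Γ).pi t) ×ˢ ((s' : Set Γ).pi t'))
      = ((s ∪ s' : Finset Γ) : Set Γ).pi
        (fun i => (if i ∈ s then t i else univ) ×ˢ (if i ∈ s' then t' i else univ)) := by
    ext z
    simp only [mem_preimage, mem_prod, Set.mem_pi, Finset.mem_coe, Finset.mem_union]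
    constructor
    · rintro ⟨h1, h2⟩ i _
      refine ⟨?_, ?_⟩
      · by_cases hi : i ∈ s
        · simpa [hi] using h1 i hi
        · simp [hi]
      · by_cases hi : i ∈ s'
        · simpa [hi] using h2 i hi
        · simp [hi]
    · intro h
      refine ⟨fun i hi => ?_, fun i hi => ?_⟩
      · have := (h i (Or.inl hi)).1
        simpa [hi] using this
      · have := (h i (Or.inr hi)).2
        simpa [hi] using this
  have hm : ∀ i, MeasurableSet ((if i ∈ s then t i else univ) ×ˢ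
      (if i ∈ s' then t' i else univ) : Set (E × E)) := by
    intro i
    refine MeasurableSet.prod ?_ ?_
    · split_ifs
      · exact ht i
      · exact MeasurableSet.univ
    · split_ifs
      · exact ht' i
      · exact MeasurableSet.univ
  rw [hset, Measure.infinitePi_pi _ fun i _ => hm i, Measure.infinitePi_pi _ fun i _ => ht i,
    Measure.infinitePi_pi _ fun i _ => ht' i]
  simp only [Measure.prod_prod]
  rw [Finset.prod_mul_distrib]
  congr 1
  · rw [← Finset.prod_subset (Finset.subset_union_left : s ⊆ s ∪ s')]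
    · exact Finset.prod_congr rfl fun i hi => by simp [hi]
    · intro i _ hi
      simp [hi]
  · rw [← Finset.prod_subset (Finset.subset_union_right : s' ⊆ s ∪ s')]
    · exact Finset.prod_congr rfl fun i hi => by simp [hi]
    · intro i _ hi
      simp [hi]

end Unzip

section Mix

variable {Γ E : Type*} [MeasurableSpace E] (ν : Measure E) [IsProbabilityMeasure ν]

/-- seeds: two samples and a label -/
abbrev Seed (E : Type*) := (E × E) × Lab

/-- law of the seeds -/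
noncomputable abbrev seedLaw : Measure (Seed E) := (ν.prod ν).prod (volume : Measure Lab)

/-- the second sample is used when the label is below `δ` -/
noncomputable def mix (δ : ℝ) (p : Seed E) : E := if ((p.2 : Lab) : ℝ) < δ then p.1.2 else p.1.1

lemma measurable_mix (δ : ℝ) : Measurable (mix δ : Seed E → E) := by
  unfold mix
  refine Measurable.ite ?_ (by fun_prop) (by fun_prop)
  exact measurableSet_lt (by fun_prop) measurable_const

/-- law of a pair of mixtures -/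
noncomputable def pairLaw (δ₁ δ₂ : ℝ) : Measure (E × E) :=
  (seedLaw ν).map (fun p => (mix δ₁ p, mix δ₂ p))

lemma measurable_mix_pair (δ₁ δ₂ : ℝ) :
    Measurable (fun p : Seed E => (mix δ₁ p, mix δ₂ p)) :=
  (measurable_mix δ₁).prodMk (measurable_mix δ₂)

instance (δ₁ δ₂ : ℝ) : IsProbabilityMeasure (pairLaw ν δ₁ δ₂) :=
  Measure.isProbabilityMeasure_map (measurable_mix_pair δ₁ δ₂).aemeasurable

lemma vol_lt {δ : ℝ} (h0 : 0 ≤ δ) (h1 : δ ≤ 1) :
    (volume : Measure Lab) {t : Lab | (t : ℝ) < δ} = ENNReal.ofReal δ := by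
  have : {t : Lab | (t : ℝ) < δ} = Iio (⟨δ, h0, h1⟩ : Lab) := by
    ext t; simp [← Subtype.coe_lt_coe]
  rw [this, unitInterval.volume_Iio]

lemma vol_ge {δ : ℝ} (h0 : 0 ≤ δ) (h1 : δ ≤ 1) :
    (volume : Measure Lab) {t : Lab | δ ≤ (t : ℝ)} = ENNReal.ofReal (1 - δ) := by
  have : {t : Lab | δ ≤ (t : ℝ)} = Ici (⟨δ, h0, h1⟩ : Lab) := by
    ext t; simp [← Subtype.coe_le_coe]
  rw [this, unitInterval.volume_Ici]

lemma vol_mid {δ₁ δ₂ : ℝ} (h0 : 0 ≤ δ₁) (h12 : δ₁ ≤ δ₂) (h1 : δ₂ ≤ 1) :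
    (volume : Measure Lab) {t : Lab | δ₁ ≤ (t : ℝ) ∧ (t : ℝ) < δ₂} = ENNReal.ofReal (δ₂ - δ₁) := by
  have : {t : Lab | δ₁ ≤ (t : ℝ) ∧ (t : ℝ) < δ₂}
      = Ico (⟨δ₁, h0, h12.trans h1⟩ : Lab) (⟨δ₂, h0.trans h12, h1⟩ : Lab) := by
    ext t; simp [← Subtype.coe_le_coe, ← Subtype.coe_lt_coe]
  rw [this, unitInterval.volume_Ico]

lemma pairLaw_apply {δ₁ δ₂ : ℝ} (h0 : 0 ≤ δ₁) (h12 : δ₁ ≤ δ₂) (h1 : δ₂ ≤ 1)
    {C : Set (E × E)} (hC : MeasurableSet C) :
    pairLaw ν δ₁ δ₂ C = (ν.prod ν) {p | (p.1, p.1) ∈ C} * ENNReal.ofReal (1 - (δ₂ - δ₁))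
      + (ν.prod ν) C * ENNReal.ofReal (δ₂ - δ₁) := by
  have hswap : (ν.prod ν) {p : E × E | (p.2, p.2) ∈ C} = (ν.prod ν) {p : E × E | (p.1, p.1) ∈ C} := by
    have hm : MeasurableSet {p : E × E | (p.1, p.1) ∈ C} :=
      (show Measurable fun p : E × E => (p.1, p.1) by fun_prop) hC
    conv_rhs => rw [← Measure.prod_swap (μ := ν) (ν := ν)]
    rw [Measure.map_apply measurable_swap hm]
    rfl
  unfold pairLaw
  rw [Measure.map_apply (measurable_mix_pair δ₁ δ₂) hC]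
  set S1 : Set (Seed E) := {p : E × E | (p.2, p.2) ∈ C} ×ˢ {t : Lab | (t : ℝ) < δ₁} with hS1
  set S2 : Set (Seed E) := C ×ˢ {t : Lab | δ₁ ≤ (t : ℝ) ∧ (t : ℝ) < δ₂} with hS2
  set S3 : Set (Seed E) := {p : E × E | (p.1, p.1) ∈ C} ×ˢ {t : Lab | δ₂ ≤ (t : ℝ)} with hS3
  have hset : (fun p : Seed E => (mix δ₁ p, mix δ₂ p)) ⁻¹' C = (S1 ∪ S2) ∪ S3 := by
    ext ⟨⟨x, y⟩, t⟩
    simp only [mem_preimage, mix, hS1, hS2, hS3, mem_union, mem_prod, mem_ofPred_eq]
    rcases lt_or_ge (t : ℝ) δ₁ with h | h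
    · have h' : (t : ℝ) < δ₂ := h.trans_le h12
      simp [h, h', not_le.2 h, not_le.2 h']
    · rcases lt_or_ge (t : ℝ) δ₂ with h' | h'
      · simp [not_lt.2 h, h, h', not_le.2 h']
      · simp [not_lt.2 h, h', not_lt.2 h']
  have hm1 : MeasurableSet {p : E × E | (p.2, p.2) ∈ C} :=
    (show Measurable fun p : E × E => (p.2, p.2) by fun_prop) hC
  have hm3 : MeasurableSet {p : E × E | (p.1, p.1) ∈ C} :=
    (show Measurable fun p : E × E => (p.1, p.1) by fun_prop) hC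
  have hT2 : MeasurableSet {t : Lab | δ₁ ≤ (t : ℝ) ∧ (t : ℝ) < δ₂} := by
    have e : {t : Lab | δ₁ ≤ (t : ℝ) ∧ (t : ℝ) < δ₂}
        = {t : Lab | δ₁ ≤ (t : ℝ)} ∩ {t : Lab | (t : ℝ) < δ₂} := rfl
    rw [e]
    exact (measurableSet_le measurable_const (by fun_prop)).inter
      (measurableSet_lt (by fun_prop) measurable_const)
  have hT3 : MeasurableSet {t : Lab | δ₂ ≤ (t : ℝ)} :=
    measurableSet_le measurable_const (by fun_prop)
  have hd12 : Disjoint S1 S2 := by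
    rw [Set.disjoint_left]
    rintro ⟨p, t⟩ h h'
    exact absurd h.2 (not_lt.2 h'.2.1)
  have hd3 : Disjoint (S1 ∪ S2) S3 := by
    rw [Set.disjoint_left]
    rintro ⟨p, t⟩ (h | h) h'
    · exact absurd (lt_of_lt_of_le h.2 h12) (not_lt.2 h'.2)
    · exact absurd h.2.2 (not_lt.2 h'.2)
  rw [hset, measure_union hd3 (hm3.prod hT3), measure_union hd12 (hC.prod hT2), hS1, hS2, hS3,
    Measure.prod_prod, Measure.prod_prod, Measure.prod_prod, vol_lt h0 (h12.trans h1),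
    vol_mid h0 h12 h1, vol_ge (h0.trans h12) h1, hswap]
  have : ENNReal.ofReal (1 - (δ₂ - δ₁)) = ENNReal.ofReal δ₁ + ENNReal.ofReal (1 - δ₂) := by
    rw [← ENNReal.ofReal_add h0 (by linarith)]
    congr 1
    ring
  rw [this]
  ring

lemma pairLaw_eq {δ₁ δ₂ : ℝ} (h0 : 0 ≤ δ₁) (h12 : δ₁ ≤ δ₂) (h1 : δ₂ ≤ 1) :
    pairLaw ν δ₁ δ₂ = pairLaw ν 0 (δ₂ - δ₁) := by
  ext C hC
  rw [pairLaw_apply ν h0 h12 h1 hC,
    pairLaw_apply ν le_rfl (by linarith : (0 : ℝ) ≤ δ₂ - δ₁) (by linarith) hC]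
  simp

lemma pairLaw_zero_one : pairLaw ν 0 1 = ν.prod ν := by
  ext C hC
  rw [pairLaw_apply ν le_rfl zero_le_one le_rfl hC]
  simp

lemma mix_zero (p : Seed E) : mix 0 p = p.1.1 := by
  unfold mix
  rw [if_neg (not_lt.2 p.2.2.1)]

lemma map_mix_zero : (seedLaw ν).map (mix 0) = ν := by
  have h1 : (mix 0 : Seed E → E) = Prod.fst ∘ Prod.fst := by
    funext p; exact mix_zero p
  rw [h1, ← Measure.map_map measurable_fst measurable_fst, Measure.map_fst_prod,
    measure_univ, one_smul, Measure.map_fst_prod, measure_univ, one_smul]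

lemma map_mix {δ : ℝ} (h0 : 0 ≤ δ) (h1 : δ ≤ 1) : (seedLaw ν).map (mix δ) = ν := by
  have hfst : ∀ δ' : ℝ, (pairLaw ν δ' δ').map Prod.fst = (seedLaw ν).map (mix δ') := by
    intro δ'
    unfold pairLaw
    rw [Measure.map_map measurable_fst (measurable_mix_pair δ' δ')]
    rfl
  rw [← hfst δ, pairLaw_eq ν h0 le_rfl h1, sub_self, hfst 0, map_mix_zero]

/-- mixture of configurations -/
noncomputable def mixΩ (δ : ℝ) (ω : Γ → Seed E) : Γ → E := fun v => mix δ (ω v)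

lemma measurable_mixΩ (δ : ℝ) : Measurable (mixΩ δ : (Γ → Seed E) → (Γ → E)) :=
  measurable_pi_lambda _ fun v => (measurable_mix δ).comp (measurable_pi_apply v)

lemma map_mixΩ {δ : ℝ} (h0 : 0 ≤ δ) (h1 : δ ≤ 1) :
    (iid Γ (seedLaw ν)).map (mixΩ δ) = iid Γ ν := by
  have := Measure.infinitePi_map_pi (fun _ : Γ => seedLaw ν) (f := fun _ => mix δ)
    (fun _ => measurable_mix δ)
  rw [map_mix ν h0 h1] at this
  exact this

/-- the pair of mixtures as one configuration -/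
noncomputable def mixPair (δ₁ δ₂ : ℝ) (ω : Γ → Seed E) : Γ → E × E :=
  fun v => (mix δ₁ (ω v), mix δ₂ (ω v))

lemma measurable_mixPair (δ₁ δ₂ : ℝ) :
    Measurable (mixPair δ₁ δ₂ : (Γ → Seed E) → (Γ → E × E)) :=
  measurable_pi_lambda _ fun v => (measurable_mix_pair δ₁ δ₂).comp (measurable_pi_apply v)

lemma map_mixPair (δ₁ δ₂ : ℝ) :
    (iid Γ (seedLaw ν)).map (mixPair δ₁ δ₂) = iid Γ (pairLaw ν δ₁ δ₂) :=
  Measure.infinitePi_map_pi (fun _ : Γ => seedLaw ν) (f := fun _ p => (mix δ₁ p, mix δ₂ p))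
    (fun _ => measurable_mix_pair δ₁ δ₂)

/-- the disagreement event of `S` between two mixtures -/
def Dis (S : Set (Γ → E)) (δ₁ δ₂ : ℝ) : Set (Γ → Seed E) :=
  symmDiff (mixΩ δ₁ ⁻¹' S) (mixΩ δ₂ ⁻¹' S)

lemma measurableSet_Dis {S : Set (Γ → E)} (hS : MeasurableSet S) (δ₁ δ₂ : ℝ) :
    MeasurableSet (Dis S δ₁ δ₂) :=
  (measurable_mixΩ δ₁ hS).symmDiff (measurable_mixΩ δ₂ hS)

/-- disagreement set on pairs of configurations -/
def PD (S : Set (Γ → E)) : Set (Γ → E × E) :=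
  symmDiff {z | (fun v => (z v).1) ∈ S} {z | (fun v => (z v).2) ∈ S}

lemma measurableSet_PD {S : Set (Γ → E)} (hS : MeasurableSet S) : MeasurableSet (PD S) :=
  ((show Measurable fun z : Γ → E × E => (fun v => (z v).1) by fun_prop) hS).symmDiff
    ((show Measurable fun z : Γ → E × E => (fun v => (z v).2) by fun_prop) hS)

lemma Dis_eq_preimage (S : Set (Γ → E)) (δ₁ δ₂ : ℝ) :
    Dis S δ₁ δ₂ = mixPair δ₁ δ₂ ⁻¹' PD S := rfl

/-- noise sensitivity -/
noncomputable def eta (S : Set (Γ → E)) (δ : ℝ) : ℝ := (iid Γ (seedLaw ν)).real (Dis S 0 δ)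

lemma real_Dis {S : Set (Γ → E)} (hS : MeasurableSet S) {δ₁ δ₂ : ℝ} (h0 : 0 ≤ δ₁)
    (h12 : δ₁ ≤ δ₂) (h1 : δ₂ ≤ 1) :
    (iid Γ (seedLaw ν)).real (Dis S δ₁ δ₂) = eta ν S (δ₂ - δ₁) := by
  unfold eta
  have h : ∀ δ₁ δ₂ : ℝ, (iid Γ (seedLaw ν)).real (Dis S δ₁ δ₂)
      = (iid Γ (pairLaw ν δ₁ δ₂)).real (PD S) := by
    intro δ₁ δ₂
    rw [Dis_eq_preimage, ← map_mixPair, map_measureReal_apply (measurable_mixPair _ _)
      (measurableSet_PD hS)]
  rw [h, h, pairLaw_eq ν h0 h12 h1]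

lemma eta_nonneg (S : Set (Γ → E)) (δ : ℝ) : 0 ≤ eta ν S δ := measureReal_nonneg

lemma Dis_triangle (S : Set (Γ → E)) (δ₁ δ₂ δ₃ : ℝ) :
    (iid Γ (seedLaw ν)).real (Dis S δ₁ δ₃)
      ≤ (iid Γ (seedLaw ν)).real (Dis S δ₁ δ₂) + (iid Γ (seedLaw ν)).real (Dis S δ₂ δ₃) := by
  refine (measureReal_mono (symmDiff_triangle _ (mixΩ δ₂ ⁻¹' S) _) (measure_ne_top _ _)).trans ?_
  exact measureReal_union_le _ _

lemma Dis_comm (S : Set (Γ → E)) (δ₁ δ₂ : ℝ) : Dis S δ₁ δ₂ = Dis S δ₂ δ₁ := symmDiff_comm _ _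

lemma eta_sub_le {S : Set (Γ → E)} (hS : MeasurableSet S) {δ₁ δ₂ : ℝ} (h0 : 0 ≤ δ₁)
    (h12 : δ₁ ≤ δ₂) (h1 : δ₂ ≤ 1) : |eta ν S δ₂ - eta ν S δ₁| ≤ eta ν S (δ₂ - δ₁) := by
  rw [← real_Dis ν hS h0 h12 h1, abs_sub_le_iff]
  constructor
  · have := Dis_triangle ν S 0 δ₁ δ₂
    unfold eta
    linarith
  · have := Dis_triangle ν S 0 δ₂ δ₁
    rw [Dis_comm S δ₂ δ₁] at this
    unfold eta
    linarith

lemma eta_zero (S : Set (Γ → E)) : eta ν S 0 = 0 := by
  unfold eta Dis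
  rw [symmDiff_self]
  simp

/-- small noise has a small effect -/
lemma eta_small {S : Set (Γ → E)} (hS : MeasurableSet S) {ε : ℝ} (hε : 0 < ε) :
    ∃ δ₀ : ℝ, 0 < δ₀ ∧ δ₀ ≤ 1 ∧ ∀ δ, 0 ≤ δ → δ ≤ δ₀ → eta ν S δ ≤ ε := by
  classical
  obtain ⟨F, C, hC, hdep, hlt⟩ := exists_cylinder_approx ν hS (show 0 < ε / 4 by positivity)
  refine ⟨min 1 (ε / (4 * (F.card + 1))), by positivity, min_le_left _ _, fun δ h0 hδ => ?_⟩
  have h1 : δ ≤ 1 := hδ.trans (min_le_left _ _)
  have h2 : δ ≤ ε / (4 * (F.card + 1)) := hδ.trans (min_le_right _ _)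
  have hmix : ∀ δ' : ℝ, 0 ≤ δ' → δ' ≤ 1 → (iid Γ (seedLaw ν)).real
      (symmDiff (mixΩ δ' ⁻¹' S) (mixΩ δ' ⁻¹' C)) < ε / 4 := by
    intro δ' h0' h1'
    have : symmDiff (mixΩ δ' ⁻¹' S) (mixΩ δ' ⁻¹' C) = mixΩ δ' ⁻¹' (symmDiff S C) := rfl
    rw [this, ← map_measureReal_apply (measurable_mixΩ δ') (hS.symmDiff hC), map_mixΩ ν h0' h1']
    exact hlt
  have hCC : (iid Γ (seedLaw ν)).real (symmDiff (mixΩ 0 ⁻¹' C) (mixΩ δ ⁻¹' C)) ≤ F.card * δ := by
    have hsub : symmDiff (mixΩ 0 ⁻¹' C) (mixΩ δ ⁻¹' C)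
        ⊆ ⋃ v ∈ F, (fun ω : Γ → Seed E => ω v) ⁻¹' {p | ((p.2 : Lab) : ℝ) < δ} := by
      intro ω hω
      by_contra hcon
      simp only [mem_iUnion, mem_preimage, mem_ofPred_eq, not_exists, not_lt] at hcon
      have hag : ∀ v ∈ (F : Set Γ), mixΩ 0 ω v = mixΩ δ ω v := by
        intro v hv
        have := hcon v hv
        simp only [mixΩ, mix_zero]
        unfold mix
        rw [if_neg (not_lt.2 this)]
      have := hdep hag
      simp only [eq_iff_iff] at this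
      simp only [mem_symmDiff, mem_preimage, this] at hω
      tauto
    refine (measureReal_mono hsub (measure_ne_top _ _)).trans ?_
    refine (measureReal_biUnion_finset_le _ _).trans ?_
    have hv : ∀ v ∈ F, (iid Γ (seedLaw ν)).real
        ((fun ω : Γ → Seed E => ω v) ⁻¹' {p | ((p.2 : Lab) : ℝ) < δ}) = δ := by
      intro v _
      have hm : MeasurableSet {p : Seed E | ((p.2 : Lab) : ℝ) < δ} :=
        measurableSet_lt (by fun_prop) measurable_const
      rw [← map_measureReal_apply (measurable_pi_apply v) hm, Measure.infinitePi_map_eval]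
      have : {p : Seed E | ((p.2 : Lab) : ℝ) < δ} = univ ×ˢ {t : Lab | (t : ℝ) < δ} := by
        ext p; simp
      rw [this, Measure.real, Measure.prod_prod, measure_univ, one_mul, vol_lt h0 h1,
        ENNReal.toReal_ofReal h0]
    rw [Finset.sum_congr rfl hv]
    simp
  have htri : eta ν S δ ≤ (iid Γ (seedLaw ν)).real (symmDiff (mixΩ 0 ⁻¹' S) (mixΩ 0 ⁻¹' C))
      + ((iid Γ (seedLaw ν)).real (symmDiff (mixΩ 0 ⁻¹' C) (mixΩ δ ⁻¹' C))
        + (iid Γ (seedLaw ν)).real (symmDiff (mixΩ δ ⁻¹' C) (mixΩ δ ⁻¹' S))) := by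
    unfold eta Dis
    refine (measureReal_mono (symmDiff_triangle _ (mixΩ 0 ⁻¹' C) _) (measure_ne_top _ _)).trans ?_
    refine (measureReal_union_le _ _).trans ?_
    gcongr
    refine (measureReal_mono (symmDiff_triangle _ (mixΩ δ ⁻¹' C) _) (measure_ne_top _ _)).trans ?_
    exact measureReal_union_le _ _
  have e1 := hmix 0 le_rfl zero_le_one
  have e2 := hmix δ h0 h1
  rw [symmDiff_comm] at e2
  have e3 : (F.card : ℝ) * δ ≤ ε / 4 := by
    have : (F.card : ℝ) * δ ≤ (F.card + 1) * (ε / (4 * (F.card + 1))) := by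
      gcongr
      linarith
    have e4 : ((F.card : ℝ) + 1) * (ε / (4 * (F.card + 1))) = ε / 4 := by
      field_simp
    linarith
  linarith

/-- full noise decorrelates -/
lemma eta_one {S : Set (Γ → E)} (hS : MeasurableSet S) :
    eta ν S 1 = 2 * ((iid Γ ν).real S * (1 - (iid Γ ν).real S)) := by
  unfold eta
  rw [Dis_eq_preimage, ← map_measureReal_apply (measurable_mixPair 0 1) (measurableSet_PD hS),
    map_mixPair, pairLaw_zero_one]
  have h2 : PD S = (fun z : Γ → E × E =>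
      ((fun v => (z v).1, fun v => (z v).2) : (Γ → E) × (Γ → E))) ⁻¹' ((S ×ˢ Sᶜ) ∪ (Sᶜ ×ˢ S)) := by
    ext z
    simp only [PD, mem_symmDiff, mem_ofPred_eq, mem_preimage, mem_union, mem_prod, mem_compl_iff]
    tauto
  have hm : MeasurableSet ((S ×ˢ Sᶜ) ∪ (Sᶜ ×ˢ S) : Set ((Γ → E) × (Γ → E))) :=
    (hS.prod hS.compl).union (hS.compl.prod hS)
  rw [h2, ← map_measureReal_apply measurable_unzip hm, map_unzip]
  have hd : Disjoint (S ×ˢ Sᶜ : Set ((Γ → E) × (Γ → E))) (Sᶜ ×ˢ S) := by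
    rw [Set.disjoint_left]
    rintro ⟨a, b⟩ h h'
    exact h'.1 h.1
  rw [measureReal_union hd (hS.compl.prod hS), measureReal_prod_prod, measureReal_prod_prod,
    probReal_compl_eq_one_sub hS]
  ring

/-- `N` small steps make up the full noise -/
lemma eta_step {S : Set (Γ → E)} (hS : MeasurableSet S) (N : ℕ) (hN : 0 < N) :
    eta ν S 1 ≤ N * eta ν S (1 / N) := by
  have hN' : (0 : ℝ) < N := by exact_mod_cast hN
  have key : ∀ i : ℕ, i ≤ N → eta ν S (i / N) ≤ i * eta ν S (1 / N) := by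
    intro i
    induction i with
    | zero => intro _; simp [eta_zero]
    | succ i ih =>
      intro hi
      have h1 := ih (by omega)
      have hle : ((i + 1 : ℕ) : ℝ) / N ≤ 1 := by
        rw [div_le_one hN']
        exact_mod_cast hi
      have hle' : (i : ℝ) / N ≤ ((i + 1 : ℕ) : ℝ) / N := by
        gcongr
        simp
      have h2 := Dis_triangle ν S 0 (i / N) ((i + 1 : ℕ) / N)
      rw [real_Dis ν hS (by positivity) hle' hle] at h2
      have h3 : ((i + 1 : ℕ) : ℝ) / N - i / N = 1 / N := by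
        push_cast
        field_simp
        ring
      rw [h3] at h2
      unfold eta at h1 h2 ⊢
      push_cast at h2 ⊢
      linarith
  have := key N le_rfl
  rwa [div_self hN'.ne'] at this

end Mix

end Pool.Agent.helper25_fiid
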