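import Pool.Agent.helper25_fiid.Entropy

/-!
Sparse events expand.
-/

set_option linter.unusedSectionVars false

open MeasureTheory Set Function Filter Topology
open scoped ENNReal

namespace Pool.Agent.helper25_fiid

/-- threshold for sparseness -/
noncomputable def pstar (k : ℕ) : ℝ := Real.exp (-(4 * (1 + (k : ℝ) ^ 2 * Real.log 2)))

lemma pstar_pos (k : ℕ) : 0 < pstar k := Real.exp_pos _

lemma pstar_lt_one (k : ℕ) : pstar k < 1 := by
  unfold pstar
  rw [Real.exp_lt_one_iff]
  have := Real.log_pos one_lt_two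
  have : 0 ≤ (k : ℝ) ^ 2 * Real.log 2 := by positivity
  linarith

lemma negMulLog_one_sub_le {q : ℝ} (h1 : q ≤ 1) : Real.negMulLog (1 - q) ≤ q := by
  rcases eq_or_lt_of_le h1 with h | h
  · simp [h]
  · have hpos : 0 < 1 - q := by linarith
    have := Real.one_sub_inv_le_log_of_pos hpos
    have h2 := mul_le_mul_of_nonneg_left this hpos.le
    have h3 : (1 - q) * (1 - (1 - q)⁻¹) = -q := by
      rw [mul_sub, mul_inv_cancel₀ hpos.ne']
      ring
    rw [h3] at h2
    unfold Real.negMulLog
    linarith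

/-- real analysis behind the sparse expansion -/
lemma sparse_real {k κ : ℕ} {p q : ℝ} (hp0 : 0 ≤ p) (hp : p ≤ pstar k) (hq0 : 0 ≤ q)
    (hq1 : q ≤ 1) (hqp : q ≤ k * p)
    (hineq : (κ : ℝ) * (Real.negMulLog p + Real.negMulLog (1 - p))
      ≤ Real.negMulLog (1 - q) + Real.negMulLog q + q * (k * Real.log 2)) :
    ((κ : ℝ) - 1 / 4) * p ≤ q := by
  rcases hp0.eq_or_lt with h | h
  · rw [← h, mul_zero]; exact hq0
  · have hlog2 := Real.log_pos one_lt_two
    set L := -Real.log p with hL
    have hLbig : 4 * (1 + (k : ℝ) ^ 2 * Real.log 2) ≤ L := by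
      have h1 : Real.log p ≤ Real.log (pstar k) := Real.log_le_log h hp
      unfold pstar at h1
      rw [Real.log_exp] at h1
      linarith
    have hc : 0 < 1 + (k : ℝ) ^ 2 * Real.log 2 := by positivity
    have hLpos : 0 < L := by linarith
    have hp1 : p ≤ 1 := hp.trans (pstar_lt_one k).le
    have e1 : Real.negMulLog p = p * L := by rw [hL, Real.negMulLog]; ring
    have e2 : 0 ≤ Real.negMulLog (1 - p) := Real.negMulLog_nonneg (by linarith) (by linarith)
    have e3 : Real.negMulLog (1 - q) ≤ q := negMulLog_one_sub_le hq1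
    have e4 : Real.negMulLog q ≤ q * L + p - q := by
      rcases hq0.eq_or_lt with h' | h'
      · rw [← h']; simp; exact hp0
      · have h2 := Real.log_le_sub_one_of_pos (show 0 < p / q by positivity)
        rw [Real.log_div h.ne' h'.ne'] at h2
        have h3 := mul_le_mul_of_nonneg_left h2 h'.le
        have h4 : q * (p / q - 1) = p - q := by field_simp
        rw [h4] at h3
        rw [Real.negMulLog, hL]
        linarith
    have e5 : (κ : ℝ) * (p * L) ≤ (κ : ℝ) * (Real.negMulLog p + Real.negMulLog (1 - p)) := by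
      refine mul_le_mul_of_nonneg_left ?_ (by positivity)
      rw [e1]; linarith
    have e6 : q * (k * Real.log 2) ≤ (k : ℝ) ^ 2 * Real.log 2 * p := by
      have := mul_le_mul_of_nonneg_right hqp (show 0 ≤ (k : ℝ) * Real.log 2 by positivity)
      calc q * (k * Real.log 2) ≤ k * p * (k * Real.log 2) := this
        _ = (k : ℝ) ^ 2 * Real.log 2 * p := by ring
    have e7 : (κ : ℝ) * (p * L) ≤ q * L + p * (1 + (k : ℝ) ^ 2 * Real.log 2) := by
      linarith
    have e8 : p * (1 + (k : ℝ) ^ 2 * Real.log 2) ≤ p * (L / 4) :=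
      mul_le_mul_of_nonneg_left (by linarith) hp0
    have e9 : ((κ : ℝ) - 1 / 4) * p * L ≤ q * L := by
      have : ((κ : ℝ) - 1 / 4) * p * L = (κ : ℝ) * (p * L) - p * (L / 4) := by ring
      rw [this]; linarith
    exact le_of_mul_le_mul_right e9 hLpos

section Main

variable {Γ E : Type*} [Group Γ] [MeasurableSpace E] {ν : Measure E}
  [IsProbabilityMeasure ν]
variable {ι κ : Type*} [Fintype ι] [DecidableEq ι] [Fintype κ]

lemma measurableSet_unique (s : ι → Γ) {D : Set (Γ → E)} (hD : MeasurableSet D) :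
    MeasurableSet {ω : Γ → E | ∃! i, shift (s i) ω ∈ D} := by
  have : {ω : Γ → E | ∃! i, shift (s i) ω ∈ D}
      = ⋃ i, (shift (s i) ⁻¹' D ∩ ⋂ i', ⋂ _ : i' ≠ i, (shift (s i') ⁻¹' D)ᶜ) := by
    ext ω
    simp only [mem_ofPred_eq, mem_iUnion, mem_inter_iff, mem_preimage, mem_iInter, mem_compl_iff]
    constructor
    · rintro ⟨i, hi, huniq⟩
      exact ⟨i, hi, fun i' hne h => hne (huniq i' h)⟩
    · rintro ⟨i, hi, h⟩
      exact ⟨i, hi, fun i' hi' => by_contra fun hne => h i' hne hi'⟩
  rw [this]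
  exact MeasurableSet.iUnion fun i => (measurable_shift _ hD).inter
    (MeasurableSet.iInter fun i' => MeasurableSet.iInter fun _ => (measurable_shift _ hD).compl)

lemma real_shift (g : Γ) {D : Set (Γ → E)} (hD : MeasurableSet D) :
    (iid Γ ν).real (shift g ⁻¹' D) = (iid Γ ν).real D := by
  unfold Measure.real
  rw [(measurePreserving_shift (ν := ν) g).measure_preimage hD.nullMeasurableSet]

lemma union_le (s : ι → Γ) {D : Set (Γ → E)} (hD : MeasurableSet D) :
    (iid Γ ν).real (⋃ i, shift (s i) ⁻¹' D) ≤ Fintype.card ι * (iid Γ ν).real D := by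
  have h1 : (⋃ i, shift (s i) ⁻¹' D) = ⋃ i ∈ (Finset.univ : Finset ι), shift (s i) ⁻¹' D := by
    simp
  rw [h1]
  refine (measureReal_biUnion_finset_le _ _).trans ?_
  rw [Finset.sum_congr rfl fun i _ => real_shift (ν := ν) (s i) hD]
  simp

lemma unique_ge (s : ι → Γ) {D : Set (Γ → E)} (hD : MeasurableSet D) :
    2 * (iid Γ ν).real (⋃ i, shift (s i) ⁻¹' D) - Fintype.card ι * (iid Γ ν).real D
      ≤ (iid Γ ν).real {ω : Γ → E | ∃! i, shift (s i) ω ∈ D} := by
  classical
  set A : ι → Set (Γ → E) := fun i => shift (s i) ⁻¹' D with hA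
  have hAm : ∀ i, MeasurableSet (A i) := fun i => measurable_shift _ hD
  set U : Set (Γ → E) := {ω : Γ → E | ∃! i, shift (s i) ω ∈ D} with hU
  have hUm : MeasurableSet U := measurableSet_unique s hD
  have hUn : MeasurableSet (⋃ i, A i) := MeasurableSet.iUnion hAm
  have hint : ∀ S : Set (Γ → E), MeasurableSet S →
      Integrable (S.indicator (fun _ => (1 : ℝ))) (iid Γ ν) := fun S hS =>
    (integrable_const (1 : ℝ)).indicator hS
  have hval : ∀ S : Set (Γ → E), MeasurableSet S →
      ∫ ω, S.indicator (fun _ => (1 : ℝ)) ω ∂(iid Γ ν) = (iid Γ ν).real S := fun S hS => by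
    rw [integral_indicator hS]
    simp
  have h1 : 2 * (iid Γ ν).real (⋃ i, A i) - (iid Γ ν).real U
      = ∫ ω, (2 * (⋃ i, A i).indicator (fun _ => (1 : ℝ)) ω
        - U.indicator (fun _ => (1 : ℝ)) ω) ∂(iid Γ ν) := by
    rw [integral_sub ((hint _ hUn).const_mul 2) (hint _ hUm), integral_const_mul, hval _ hUn,
      hval _ hUm]
  have h2 : (Fintype.card ι : ℝ) * (iid Γ ν).real D
      = ∫ ω, ∑ i, (A i).indicator (fun _ => (1 : ℝ)) ω ∂(iid Γ ν) := by
    rw [integral_finsetSum _ fun i _ => hint _ (hAm i)]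
    have : ∀ i ∈ (Finset.univ : Finset ι),
        ∫ ω, (A i).indicator (fun _ => (1 : ℝ)) ω ∂(iid Γ ν) = (iid Γ ν).real D := fun i _ => by
      rw [hval _ (hAm i)]
      exact real_shift (s i) hD
    rw [Finset.sum_congr rfl this]
    simp
  have h3 : ∫ ω, (2 * (⋃ i, A i).indicator (fun _ => (1 : ℝ)) ω
        - U.indicator (fun _ => (1 : ℝ)) ω) ∂(iid Γ ν)
      ≤ ∫ ω, ∑ i, (A i).indicator (fun _ => (1 : ℝ)) ω ∂(iid Γ ν) := by
    refine integral_mono (((hint _ hUn).const_mul 2).sub (hint _ hUm))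
      (integrable_finsetSum _ fun i _ => hint _ (hAm i)) fun ω => ?_
    simp only
    set N := (Finset.univ.filter fun i => ω ∈ A i).card with hN
    have hsum : ∑ i, (A i).indicator (fun _ => (1 : ℝ)) ω = N := by
      simp only [indicator_apply]
      rw [Finset.sum_boole]
    have hu : ω ∈ (⋃ i, A i) ↔ 1 ≤ N := by
      rw [mem_iUnion, hN, Finset.one_le_card]
      constructor
      · rintro ⟨i, hi⟩; exact ⟨i, by simpa using hi⟩
      · rintro ⟨i, hi⟩; exact ⟨i, by simpa using hi⟩
    have hUe : ω ∈ U ↔ N = 1 := by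
      rw [hN, Finset.card_eq_one]
      constructor
      · rintro ⟨i, hi, huniq⟩
        refine ⟨i, ?_⟩
        ext i'
        simp only [Finset.mem_filter, Finset.mem_univ, true_and, Finset.mem_singleton]
        constructor
        · intro h; exact huniq i' h
        · rintro rfl; exact hi
      · rintro ⟨i, hi⟩
        refine ⟨i, ?_, fun i' hi' => ?_⟩
        · have : i ∈ Finset.univ.filter fun i => ω ∈ A i := by rw [hi]; simp
          exact (Finset.mem_filter.1 this).2
        · have : i' ∈ Finset.univ.filter fun i => ω ∈ A i :=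
            Finset.mem_filter.2 ⟨Finset.mem_univ _, hi'⟩
          rw [hi] at this
          simpa using this
    rw [hsum]
    simp only [indicator_apply, hu, hUe]
    rcases Nat.lt_or_ge N 1 with h | h
    · have h0 : N = 0 := by omega
      simp [h0]
    · rcases eq_or_lt_of_le h with h' | h'
      · rw [← h']; norm_num
      · have h2 : ¬ (N = 1) := by omega
        have h3 : (2 : ℝ) ≤ N := by exact_mod_cast h'
        simp only [h, if_true, h2, if_false]
        linarith
  rw [← h1, ← h2] at h3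
  linarith

/-- Sparse events expand: if `2|κ| ≥ |ι| + 2`, an event of small probability `p` is seen exactly
once among its `|ι|` translates with probability at least `3p/2`. -/
theorem sparse_expansion [Countable Γ] (s : ι → Γ) (j : Γ × κ → Γ) (hj : Injective j)
    (hjs : ∀ w k, ∃ i, s i * j (w, k) = w) (hκ : Fintype.card ι + 2 ≤ 2 * Fintype.card κ)
    {D : Set (Γ → E)} (hD : MeasurableSet D)
    (hp : (iid Γ ν).real D ≤ pstar (Fintype.card ι)) :
    (3 / 2) * (iid Γ ν).real D ≤ (iid Γ ν).real {ω : Γ → E | ∃! i, shift (s i) ω ∈ D} := by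
  have h1 := entropy_ineq (ν := ν) s j hj hjs hD
  have h2 := sparse_real (measureReal_nonneg) hp measureReal_nonneg measureReal_le_one
    (union_le s hD) h1
  have h3 := unique_ge (ν := ν) s hD
  have h4 : (Fintype.card ι : ℝ) + 2 ≤ 2 * Fintype.card κ := by exact_mod_cast hκ
  have h5 : 0 ≤ (iid Γ ν).real D := measureReal_nonneg
  have h6 : (3 / 2) * (iid Γ ν).real D
      ≤ 2 * (((Fintype.card κ : ℝ) - 1 / 4) * (iid Γ ν).real D)
        - Fintype.card ι * (iid Γ ν).real D := by
    have : 2 * (((Fintype.card κ : ℝ) - 1 / 4) * (iid Γ ν).real D)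
        - Fintype.card ι * (iid Γ ν).real D
        = (2 * (Fintype.card κ : ℝ) - 1 / 2 - Fintype.card ι) * (iid Γ ν).real D := by ring
    rw [this]
    exact mul_le_mul_of_nonneg_right (by linarith) h5
  linarith

end Main

end Pool.Agent.helper25_fiid
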