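import Mathlib

/-!
The regular tree of degree `n + 1` as the Cayley graph of the free product of `n + 1` groups of
order two, on reduced words.
-/

open Set Function

namespace Pool.Agent.helper25_fiid

/-- Reduced words in `n + 1` letters: no two consecutive letters are equal. -/
@[ext]
structure RW (n : ℕ) : Type where
  /-- the letters -/
  val : List (Fin (n + 1))
  /-- consecutive letters differ -/
  isChain : val.IsChain (· ≠ ·)

namespace RW

variable {n : ℕ}

lemma val_injective : Injective (RW.val : RW n → List (Fin (n + 1))) := fun _ _ h => RW.ext h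

instance : Countable (RW n) := val_injective.countable

instance : DecidableEq (RW n) := fun x y => decidable_of_iff (x.val = y.val) RW.ext_iff.symm

/-- put the letter `a` in front, or cancel it -/
def togL (a : Fin (n + 1)) : List (Fin (n + 1)) → List (Fin (n + 1))
  | [] => [a]
  | b :: t => if a = b then t else a :: b :: t

lemma togL_isChain (a : Fin (n + 1)) {l : List (Fin (n + 1))} (h : l.IsChain (· ≠ ·)) :
    (togL a l).IsChain (· ≠ ·) := by
  match l, h with
  | [], _ => exact List.isChain_singleton a
  | b :: t, h =>
    by_cases hab : a = b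
    · have : togL a (b :: t) = t := by simp [togL, hab]
      rw [this]
      exact h.tail
    · have : togL a (b :: t) = a :: b :: t := by simp [togL, hab]
      rw [this]
      exact List.isChain_cons_cons.2 ⟨hab, h⟩

/-- multiplication by a letter -/
def toggle (a : Fin (n + 1)) (x : RW n) : RW n := ⟨togL a x.1, togL_isChain a x.2⟩

lemma toggle_toggle (a : Fin (n + 1)) (x : RW n) : toggle a (toggle a x) = x := by
  obtain ⟨l, h⟩ := x
  apply RW.ext
  show togL a (togL a l) = l
  match l, h with
  | [], _ => simp [togL]
  | [b], _ =>
    by_cases hab : a = b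
    · subst hab; simp [togL]
    · simp [togL, hab]
  | b :: c :: t, h =>
    by_cases hab : a = b
    · subst hab
      have := (List.isChain_cons_cons.1 h).1
      simp [togL, this]
    · simp [togL, hab]

instance : One (RW n) := ⟨⟨[], List.isChain_nil⟩⟩
instance : Mul (RW n) := ⟨fun x y => x.1.foldr toggle y⟩
instance : Inv (RW n) := ⟨fun x => ⟨x.1.reverse, by
  rw [List.isChain_reverse]
  exact x.2.imp fun _ _ h => h.symm⟩⟩

lemma mul_def (x y : RW n) : x * y = x.1.foldr toggle y := rfl

lemma one_val : (1 : RW n).1 = [] := rfl

lemma toggle_mul (a : Fin (n + 1)) (x y : RW n) : toggle a x * y = toggle a (x * y) := by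
  obtain ⟨l, h⟩ := x
  match l, h with
  | [], _ => rfl
  | b :: t, h =>
    by_cases hab : a = b
    · subst hab
      have h1 : toggle a ⟨a :: t, h⟩ = ⟨t, h.tail⟩ := by
        apply RW.ext
        simp [toggle, togL]
      rw [h1]
      show t.foldr toggle y = toggle a ((a :: t).foldr toggle y)
      rw [List.foldr_cons, toggle_toggle]
    · have h1 : toggle a ⟨b :: t, h⟩ = ⟨a :: b :: t, List.isChain_cons_cons.2 ⟨hab, h⟩⟩ := by
        apply RW.ext
        simp [toggle, togL, hab]
      rw [h1]
      rfl

lemma mul_assoc' (x y z : RW n) : x * y * z = x * (y * z) := by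
  obtain ⟨l, h⟩ := x
  induction l with
  | nil => rfl
  | cons a t ih =>
    have h1 : (⟨a :: t, h⟩ : RW n) * y = toggle a ((⟨t, h.tail⟩ : RW n) * y) := rfl
    have h2 : (⟨a :: t, h⟩ : RW n) * (y * z) = toggle a ((⟨t, h.tail⟩ : RW n) * (y * z)) := rfl
    rw [h1, h2, toggle_mul, ih h.tail]

lemma foldl_self (l : List (Fin (n + 1))) (x : RW n) (hx : x.1 = l) :
    l.foldl (fun y a => toggle a y) x = 1 := by
  induction l generalizing x with
  | nil => exact RW.ext hx
  | cons a t ih =>
    rw [List.foldl_cons]
    refine ih _ ?_
    show togL a x.1 = t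
    rw [hx]
    simp [togL]

lemma inv_mul_cancel' (x : RW n) : x⁻¹ * x = 1 := by
  show x.1.reverse.foldr toggle x = 1
  rw [List.foldr_reverse]
  exact foldl_self x.1 x rfl

instance : Group (RW n) := Group.ofLeftAxioms mul_assoc' (fun _ => rfl) inv_mul_cancel'

/-- the generators -/
def gen (a : Fin (n + 1)) : RW n := ⟨[a], List.isChain_singleton a⟩

lemma gen_mul (a : Fin (n + 1)) (x : RW n) : gen a * x = toggle a x := rfl

/-- length -/
def len (x : RW n) : ℕ := x.1.length

lemma len_toggle (a : Fin (n + 1)) (x : RW n) :
    (len (toggle a x) + 1 = len x ∧ x.1 = a :: (toggle a x).1)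
      ∨ (len (toggle a x) = len x + 1 ∧ (toggle a x).1 = a :: x.1) := by
  obtain ⟨l, h⟩ := x
  match l, h with
  | [], _ => right; simp [len, toggle, togL]
  | b :: t, h =>
    by_cases hab : a = b
    · left; subst hab; simp [len, toggle, togL]
    · right; simp [len, toggle, togL, hab]

lemma toggle_ne (a : Fin (n + 1)) (x : RW n) : toggle a x ≠ x := by
  intro h
  have := len_toggle a x
  rw [h] at this
  omega

lemma toggle_injective_letter (x : RW n) : Injective fun a => toggle a x := by
  intro a b hab
  simp only at hab
  have ha := len_toggle a x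
  have hb := len_toggle b x
  rw [hab] at ha
  rcases ha with ⟨h1, h2⟩ | ⟨h1, h2⟩ <;> rcases hb with ⟨h3, h4⟩ | ⟨h3, h4⟩
  · rw [h2] at h4
    exact (List.cons.inj h4).1
  · omega
  · omega
  · rw [h2] at h4
    exact (List.cons.inj h4).1

/-- The `(n+1)`-regular tree. -/
def tree (n : ℕ) : SimpleGraph (RW n) where
  Adj x y := ∃ a, y = toggle a x
  symm := ⟨by rintro x y ⟨a, rfl⟩; exact ⟨a, (toggle_toggle a x).symm⟩⟩
  loopless := ⟨by rintro x ⟨a, h⟩; exact toggle_ne a x h.symm⟩

lemma tree_adj {x y : RW n} : (tree n).Adj x y ↔ ∃ a, y = toggle a x := Iff.rfl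

lemma neighborSet_eq (x : RW n) : (tree n).neighborSet x = range fun a => toggle a x := by
  ext y
  simp only [SimpleGraph.mem_neighborSet, tree_adj, mem_range]
  exact exists_congr fun a => eq_comm

instance : (tree n).LocallyFinite := fun x =>
  Fintype.ofFinset (Finset.univ.image fun a => toggle a x) fun y => by
    rw [neighborSet_eq]; simp

lemma neighborFinset_eq (x : RW n) :
    (tree n).neighborFinset x = Finset.univ.image fun a => toggle a x := by
  ext y
  simp only [SimpleGraph.mem_neighborFinset, tree_adj, Finset.mem_image, Finset.mem_univ, true_and]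
  exact exists_congr fun a => eq_comm

lemma degree_eq (x : RW n) : (tree n).degree x = n + 1 := by
  rw [← SimpleGraph.card_neighborFinset_eq_degree, neighborFinset_eq,
    Finset.card_image_of_injective _ (toggle_injective_letter x)]
  simp

lemma reachable_one (x : RW n) : (tree n).Reachable 1 x := by
  obtain ⟨l, h⟩ := x
  induction l with
  | nil => exact SimpleGraph.Reachable.refl _
  | cons a t ih =>
    refine (ih h.tail).trans (SimpleGraph.Adj.reachable ?_)
    refine ⟨a, ?_⟩
    have h2 : toggle a ⟨a :: t, h⟩ = ⟨t, h.tail⟩ := by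
      apply RW.ext
      simp [toggle, togL]
    rw [← h2, toggle_toggle]

lemma connected : (tree n).Connected := by
  rw [SimpleGraph.connected_iff]
  exact ⟨fun x y => (reachable_one x).symm.trans (reachable_one y), ⟨1⟩⟩

instance : Infinite (RW (n + 1)) := by
  have hex : ∀ k : ℕ, ∃ x : RW (n + 1), len x = k := by
    intro k
    induction k with
    | zero => exact ⟨1, rfl⟩
    | succ k ih =>
      obtain ⟨x, hx⟩ := ih
      rcases len_toggle 0 x with ⟨h1, h2⟩ | ⟨h1, h2⟩
      · rcases len_toggle 1 x with ⟨h3, h4⟩ | ⟨h3, h4⟩
        · rw [h2] at h4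
          have := (List.cons.inj h4).1
          exact absurd this (by simp)
        · exact ⟨_, h3.trans (by rw [hx])⟩
      · exact ⟨_, h1.trans (by rw [hx])⟩
  exact Infinite.of_surjective (len : RW (n + 1) → ℕ) hex

lemma isAcyclic : (tree n).IsAcyclic := by
  rw [SimpleGraph.isAcyclic_iff_forall_adj_isBridge]
  -- it is enough to treat an edge from a word to its tail
  have key : ∀ (a : Fin (n + 1)) (x : RW n), (toggle a x).1 = a :: x.1 →
      (tree n).IsBridge s(toggle a x, x) := by
    intro a x hax
    rw [SimpleGraph.isBridge_iff]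
    intro hr
    have hinv : ∀ y, ((tree n).deleteEdges {s(toggle a x, x)}).Reachable (toggle a x) y →
        (toggle a x).1 <:+ y.1 := by
      intro y hy
      rw [SimpleGraph.reachable_iff_reflTransGen] at hy
      induction hy with
      | refl => exact List.suffix_rfl
      | @tail b c _ hbc ih =>
        rw [SimpleGraph.deleteEdges_adj] at hbc
        obtain ⟨⟨e, rfl⟩, hne⟩ := hbc
        rcases len_toggle e b with ⟨_, h2⟩ | ⟨_, h2⟩
        · rw [h2, List.suffix_cons_iff] at ih
          rcases ih with h3 | h3
          · exfalso
            apply hne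
            rw [← h2] at h3
            have hb : toggle a x = b := RW.ext h3
            have hc : (toggle e b).1 = x.1 := by
              rw [hax] at h3
              rw [h2] at h3
              exact (List.cons.inj h3).2.symm
            have hc' : toggle e b = x := RW.ext hc
            rw [hc', ← hb]
            exact mem_singleton _
          · exact h3
        · rw [h2, List.suffix_cons_iff]
          exact Or.inr ih
    have := hinv x hr
    rw [hax] at this
    have := this.length_le
    simp at this
  intro v w hvw
  obtain ⟨a, rfl⟩ := hvw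
  rcases len_toggle a v with ⟨h1, h2⟩ | ⟨h1, h2⟩
  · have := key a (toggle a v) (by rw [toggle_toggle]; exact h2)
    rwa [toggle_toggle] at this
  · rw [Sym2.eq_swap]
    exact key a v h2

end RW

end Pool.Agent.helper25_fiid
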